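import Pool.Agent.H634R2.GraphDefs
import Pool.Agent.NPC.Dec
import Pool.Agent.H671R2.PolyAuto

/-!
# Polynomial-time tests for lists and for finite simple graphs given by lists
-/

namespace Pool.Agent.Q231.Gr

open Pool.Agent.NPC Pool.Agent.NPC.H634R2

theorem nodup_map_iff {α β : Type} (l : List α) (g : α → β) : (l.map g).Nodup ↔
    ∀ p ∈ l.zipIdx, ∀ q ∈ l.zipIdx, g p.1 = g q.1 → p.2 = q.2 := by
  rw [List.nodup_iff_injective_getElem]
  constructor
  · intro h p hp q hq hpq
    obtain ⟨x, i⟩ := p
    obtain ⟨y, j⟩ := q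
    rw [List.mem_zipIdx_iff_getElem?] at hp hq
    simp only at hp hq hpq ⊢
    obtain ⟨hi, hi'⟩ := List.getElem?_eq_some_iff.1 hp
    obtain ⟨hj, hj'⟩ := List.getElem?_eq_some_iff.1 hq
    have := @h ⟨i, by simpa using hi⟩ ⟨j, by simpa using hj⟩
      (by simp only [List.getElem_map, hi', hj', hpq])
    simpa using this
  · rintro h ⟨i, hi⟩ ⟨j, hj⟩ hij
    have hi' : i < l.length := by simpa using hi
    have hj' : j < l.length := by simpa using hj
    have := h (l[i], i) (by rw [List.mem_zipIdx_iff_getElem?]; simp [hi']) (l[j], j)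
      (by rw [List.mem_zipIdx_iff_getElem?]; simp [hj']) (by simpa using hij)
    simpa using this

theorem nodup_iff (l : List ℕ) : l.Nodup ↔
    ∀ p ∈ l.zipIdx, ∀ q ∈ l.zipIdx, p.1 = q.1 → p.2 = q.2 := by
  have := nodup_map_iff l id
  rwa [List.map_id] at this

theorem nodup_poly {α : Type} [TEnc α] {l : α → List ℕ} (hl : Poly l) :
    Poly (fun a => decide ((l a).Nodup)) := by
  refine Poly.congr (f := fun a => (l a).zipIdx.all (fun p => (l a).zipIdx.all (fun q =>
    (!decide (p.1 = q.1) || decide (p.2 = q.2))))) (by fun_prop) fun a => ?_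
  rw [Bool.eq_iff_iff]
  simp only [decide_eq_true_eq, List.all_eq_true, nodup_iff, Bool.or_eq_true, Bool.not_eq_true',
    decide_eq_false_iff_not, imp_iff_not_or]

attribute [local fun_prop] nodup_poly

/-- the test for simple graphs -/
def isGraphB (V : List ℕ) (E : List (ℕ × ℕ)) : Bool :=
  decide V.Nodup && (E.all fun e => decide (e.1 ∈ V) && decide (e.2 ∈ V) && decide (e.1 ≠ e.2)) &&
    (E.zipIdx.all fun p => E.zipIdx.all fun q => !((decide (p.1.1 = q.1.1) &&
      decide (p.1.2 = q.1.2)) || (decide (p.1.1 = q.1.2) && decide (p.1.2 = q.1.1))) ||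
      decide (p.2 = q.2))

theorem isGraphB_iff (V : List ℕ) (E : List (ℕ × ℕ)) : isGraphB V E = true ↔ IsGraph V E := by
  unfold isGraphB IsGraph
  rw [nodup_map_iff]
  simp only [Bool.and_eq_true, decide_eq_true_eq, List.all_eq_true, Bool.or_eq_true,
    Bool.not_eq_true', Sym2.eq_iff, and_assoc, imp_iff_not_or, Bool.or_eq_false_iff,
    Bool.and_eq_false_iff, decide_eq_false_iff_not]
  refine and_congr_right fun _ => and_congr ?_ ?_
  · simp only [ne_eq]
  · refine forall_congr' fun p => ?_
    refine or_congr_right (forall_congr' fun q => or_congr_right ?_)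
    tauto

theorem isGraphB_poly {α : Type} [TEnc α] {V : α → List ℕ} {E : α → List (ℕ × ℕ)} (hV : Poly V)
    (hE : Poly E) : Poly (fun a => isGraphB (V a) (E a)) := by
  unfold isGraphB
  fun_prop

theorem sz_sublist {β : Type} [TEnc β] {l l' : List β} (h : l.Sublist l') : sz l ≤ sz l' := by
  induction h with
  | slnil => exact le_rfl
  | cons a _ ih => simp; omega
  | cons_cons a _ ih => simp; omega

/-- Removing repetitions. -/
theorem poly_dedup {α β : Type} [TEnc α] [TEnc β] [DecidableEq β] {l : α → List β}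
    (hl : Poly l) : Poly (fun a => (l a).dedup) := by
  obtain ⟨r, hr⟩ := hl.sz_le
  have key : ∀ l : List β, l.foldr (fun b acc => if b ∈ acc then acc else b :: acc) [] =
      l.dedup := by
    intro l
    induction l with
    | nil => rfl
    | cons b l ih =>
      rw [List.foldr_cons, ih]
      by_cases h : b ∈ l
      · rw [if_pos (List.mem_dedup.2 h), List.dedup_cons_of_mem h]
      · rw [if_neg (fun h' => h (List.mem_dedup.1 h')), List.dedup_cons_of_notMem h]
  refine (Poly.foldr (l := l) (s := fun _ => ([] : List β))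
    (F := fun _ b acc => if b ∈ acc then acc else b :: acc) hl (Pool.Agent.NPC.Poly.const _)
    (Poly.ite (Poly.decide_mem (Poly.fst (Poly.snd Poly.id)) (Poly.snd (Poly.snd Poly.id)))
      (Poly.snd (Poly.snd Poly.id))
      (Poly.cons (Poly.fst (Poly.snd Poly.id)) (Poly.snd (Poly.snd Poly.id)))) r ?_).congr
    fun a => key (l a)
  intro a k _
  rw [key]
  exact (sz_sublist (List.dedup_sublist _)).trans ((Poly.sz_drop_le _ _).trans (hr a))

theorem sz_filter_le {β : Type} [TEnc β] (p : β → Bool) (l : List β) :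
    sz (l.filter p) ≤ sz l := by
  induction l with
  | nil => simp
  | cons a l ih =>
    rw [List.filter_cons]
    split_ifs <;> simp <;> omega

/-- The class `P` is closed under complements. -/
theorem inP_compl {L : Set (List Bool)} (h : InP L) : InP Lᶜ := by
  obtain ⟨V, hV, h⟩ := h
  refine ⟨fun x => [!decide (V x = [true])], polyTime_test (g := fun y => !decide (y = [true])) hV
    (by fun_prop), fun x => ?_⟩
  rw [Set.mem_compl_iff, h]
  simp

/-- A `coNP`-complete problem is in `P` if and only if `P = NP`. -/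
theorem coNP_collapse {L : Set (List Bool)} (h1 : InCoNP L) (h2 : CoNPHard L) :
    InP L ↔ ∀ L' : Set (List Bool), InNP L' → InP L' := by
  constructor
  · intro h L' hL'
    have h3 : InCoNP L'ᶜ := by
      unfold InCoNP
      rwa [compl_compl]
    have h4 := inP_compl (InP.of_reduces (h2 _ h3) h)
    rwa [compl_compl] at h4
  · intro h
    have h3 := inP_compl (h _ h1)
    rwa [compl_compl] at h3

end Pool.Agent.Q231.Gr
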