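import Pool.Agent.H648R3.WC.Nae

/-!
# Monotone not-all-equal satisfiability with natural numbers as variables
-/

namespace Pool.Agent.Q231.NaeN

open Pool.Agent.NPC Pool.Agent.NPC.WC648

/-- Not-all-equal satisfiability of monotone clauses with three (not necessarily distinct)
variables. -/
def NAEn (φ : List (ℕ × ℕ × ℕ)) : Prop :=
  ∃ τ : ℕ → Bool, ∀ t ∈ φ, ¬ (τ t.1 = τ t.2.1 ∧ τ t.2.1 = τ t.2.2)

/-- the number of a variable -/
def code (x : NV) : ℕ := 6 * x.2.1 + 2 * x.1 + (if x.2.2 then 1 else 0)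

/-- the variable with a given number -/
def dec (n : ℕ) : NV := ((n % 6) / 2, n / 6, decide (n % 2 = 1))

theorem dec_code (x : NV) (hx : x.1 ≤ 2) : dec (code x) = x := by
  obtain ⟨a, b, c⟩ := x
  simp only at hx
  unfold dec code
  simp only [Prod.mk.injEq]
  cases c
  · refine ⟨by simp; omega, by simp; omega, ?_⟩
    simp only [decide_eq_false_iff_not]
    simp
    omega
  · refine ⟨by simp; omega, by simp; omega, ?_⟩
    simp only [decide_eq_true_eq]
    simp
    omega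

/-- the renamed formula -/
def ren (φ : List (Lit ℕ × Lit ℕ × Lit ℕ)) : List (ℕ × ℕ × ℕ) :=
  (redN φ).map (fun t => (code t.1, code t.2.1, code t.2.2))

theorem redN_le {φ : List (Lit ℕ × Lit ℕ × Lit ℕ)} {t : NV × NV × NV} (ht : t ∈ redN φ) :
    t.1.1 ≤ 2 ∧ t.2.1.1 ≤ 2 ∧ t.2.2.1 ≤ 2 := by
  simp only [redN, List.mem_flatMap] at ht
  obtain ⟨⟨c, i⟩, _, ht⟩ := ht
  simp only [cls, List.mem_cons, List.not_mem_nil, or_false] at ht
  rcases ht with rfl | rfl | rfl | rfl | rfl | rfl <;> simp [lv, nlv]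

theorem ren_correct (φ : List (Lit ℕ × Lit ℕ × Lit ℕ)) : SAT3 φ ↔ NAEn (ren φ) := by
  rw [redN_correct]
  constructor
  · rintro ⟨τ, hτ⟩
    refine ⟨fun n => τ (dec n), ?_⟩
    intro t ht
    rw [ren, List.mem_map] at ht
    obtain ⟨s, hs, rfl⟩ := ht
    obtain ⟨h1, h2, h3⟩ := redN_le hs
    simp only [dec_code _ h1, dec_code _ h2, dec_code _ h3]
    exact hτ s hs
  · rintro ⟨τ, hτ⟩
    refine ⟨fun x => τ (code x), fun t ht => ?_⟩
    exact hτ _ (List.mem_map_of_mem ht)

theorem ren_poly : Poly ren := by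
  unfold ren redN cls lv nlv code
  fun_prop

theorem hardI_NAEn : HardI NAEn := hardI_SAT3.trans ren_poly ren_correct

end Pool.Agent.Q231.NaeN
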