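import Mathlib
import Pool.Agent.Q109.AS.Stm

/-!
# Job AS-UP: the digit construction
-/

set_option autoImplicit false

namespace Pool.Agent.Q109.AS

/-- the digits -/
def up_b (r : ℕ) : ℕ := ([6, 7, 4, 5, 10, 1, 0, 1, 10, 5, 4, 7, 6] : List ℕ).getD r 0

/-- the values of the digit sums -/
def up_V : Finset ℤ := {0, 2, 4, 8, 10, 12, 14, 16, 20, 24}

theorem up_V_card : up_V.card = 10 := by decide

theorem up_dec : ∀ r < 13, ∀ s < 13, ((up_b r : ℕ) : ℤ) - (r : ℕ) + ((up_b s : ℕ) + (s : ℕ)) ∈ up_V := by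
  decide

theorem up_b_lt : ∀ r < 13, up_b r < 13 := by
  decide

/-- the digit function -/
def up_B : ℕ → ℕ → ℕ
  | 0, _ => 0
  | K + 1, i => up_b (i % 13) + 13 * up_B K (i / 13)

theorem up_B_lt (K : ℕ) : ∀ i, up_B K i < 13 ^ K := by
  induction K with
  | zero => intro i; simp [up_B]
  | succ K ih =>
    intro i
    have h1 := ih (i / 13)
    have h2 := up_b_lt (i % 13) (Nat.mod_lt _ (by norm_num))
    rw [up_B, pow_succ]
    omega

/-- the values -/
def up_W : ℕ → Finset ℤ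
  | 0 => {0}
  | K + 1 => (up_V ×ˢ up_W K).image (fun p => p.1 + 13 * p.2)

theorem up_W_card (K : ℕ) : (up_W K).card ≤ 10 ^ K := by
  induction K with
  | zero => simp [up_W]
  | succ K ih =>
    rw [up_W]
    refine Finset.card_image_le.trans ?_
    rw [Finset.card_product, up_V_card, pow_succ]
    omega

theorem up_mem (K : ℕ) : ∀ i j, i < 13 ^ K → j < 13 ^ K →
    ((up_B K i : ℕ) : ℤ) - (i : ℕ) + ((up_B K j : ℕ) + (j : ℕ)) ∈ up_W K := by
  induction K with
  | zero =>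
    intro i j hi hj
    have h1 : i = 0 := by simpa using hi
    have h2 : j = 0 := by simpa using hj
    subst h1 h2
    simp [up_B, up_W]
  | succ K ih =>
    intro i j hi hj
    have hi' : i / 13 < 13 ^ K := by
      rw [pow_succ] at hi
      omega
    have hj' : j / 13 < 13 ^ K := by
      rw [pow_succ] at hj
      omega
    have h := ih (i / 13) (j / 13) hi' hj'
    have h2 := up_dec (i % 13) (Nat.mod_lt _ (by norm_num)) (j % 13) (Nat.mod_lt _ (by norm_num))
    rw [up_W, Finset.mem_image]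
    refine ⟨(_, _), Finset.mem_product.2 ⟨h2, h⟩, ?_⟩
    have e1 : i = 13 * (i / 13) + i % 13 := by omega
    have e2 : j = 13 * (j / 13) + j % 13 := by omega
    have e3 : ((i : ℕ) : ℤ) = 13 * ((i / 13 : ℕ) : ℤ) + ((i % 13 : ℕ) : ℤ) := by exact_mod_cast e1
    have e4 : ((j : ℕ) : ℤ) = 13 * ((j / 13 : ℕ) : ℤ) + ((j % 13 : ℕ) : ℤ) := by exact_mod_cast e2
    have e5 : ((up_B (K + 1) i : ℕ) : ℤ) = (up_b (i % 13) : ℕ) + 13 * ((up_B K (i / 13) : ℕ) : ℤ) := by
      rw [up_B]; push_cast; ring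
    have e6 : ((up_B (K + 1) j : ℕ) : ℤ) = (up_b (j % 13) : ℕ) + 13 * ((up_B K (j / 13) : ℕ) : ℤ) := by
      rw [up_B]; push_cast; ring
    rw [e5, e6]
    linarith

theorem up : S_UP := by
  intro L
  obtain ⟨m, hm⟩ : ∃ m : ℕ, m = 13 ^ (10 * L) := ⟨_, rfl⟩
  have hm0 : 0 < m := by rw [hm]; positivity
  refine ⟨fun i => up_B (10 * L) (i % m), fun i => up_B_lt _ _, ?_⟩
  have hn : 13 ^ (11 * L) = 13 ^ L * m := by
    rw [hm, ← pow_add]
    congr 1
    ring
  have hsub : S (13 ^ (11 * L)) (fun i => up_B (10 * L) (i % m)) ⊆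
      (((Finset.range (13 ^ L + 1)) ×ˢ (up_W (10 * L))).image
        (fun p : ℕ × ℤ => ((p.1 : ℤ) * m + p.2).toNat) : Finset ℕ) := by
    rintro z ⟨i, j, _, hij, hjn, hz⟩
    rw [Finset.mem_coe, Finset.mem_image]
    have hri : i % m < 13 ^ (10 * L) := by rw [← hm]; exact Nat.mod_lt _ hm0
    have hrj : j % m < 13 ^ (10 * L) := by rw [← hm]; exact Nat.mod_lt _ hm0
    have hT : i / m ≤ j / m := Nat.div_le_div_right hij.le
    have hT' : j / m ≤ 13 ^ L := by
      apply Nat.div_le_of_le_mul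
      rw [hn] at hjn
      rw [mul_comm]
      exact hjn
    refine ⟨(j / m - i / m, _), Finset.mem_product.2 ⟨?_, up_mem (10 * L) (i % m) (j % m) hri hrj⟩, ?_⟩
    · rw [Finset.mem_range]
      have := Nat.sub_le (j / m) (i / m)
      show j / m - i / m < 13 ^ L + 1
      omega
    · have e3 : ((i : ℕ) : ℤ) = (m : ℤ) * ((i / m : ℕ) : ℤ) + ((i % m : ℕ) : ℤ) := by
        exact_mod_cast (Nat.div_add_mod i m).symm
      have e4 : ((j : ℕ) : ℤ) = (m : ℤ) * ((j / m : ℕ) : ℤ) + ((j % m : ℕ) : ℤ) := by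
        exact_mod_cast (Nat.div_add_mod j m).symm
      have hz' : (z : ℤ) = (up_B (10 * L) (i % m) : ℕ) + (up_B (10 * L) (j % m) : ℕ) + ((j : ℕ) - (i : ℕ) : ℤ) := by
        rw [hz]
        push_cast [Nat.cast_sub hij.le]
        ring
      have key : (((j / m - i / m : ℕ) : ℤ) * m + (((up_B (10 * L) (i % m) : ℕ) : ℤ) - ((i % m : ℕ) : ℤ) +
          (((up_B (10 * L) (j % m) : ℕ) : ℤ) + ((j % m : ℕ) : ℤ)))) = (z : ℤ) := by
        rw [hz', e3, e4, Nat.cast_sub hT]
        have e5 : (m : ℤ) * ((i / m : ℕ) : ℤ) + ((i % m : ℕ) : ℤ) = (i : ℤ) := e3.symm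
        have e6 : (m : ℤ) * ((j / m : ℕ) : ℤ) + ((j % m : ℕ) : ℤ) = (j : ℤ) := e4.symm
        ring
      show ((((j / m - i / m : ℕ) : ℤ) * m + (((up_B (10 * L) (i % m) : ℕ) : ℤ) - ((i % m : ℕ) : ℤ) +
          (((up_B (10 * L) (j % m) : ℕ) : ℤ) + ((j % m : ℕ) : ℤ))))).toNat = z
      rw [key]
      exact Int.toNat_natCast z
  have h1 := Set.ncard_le_ncard hsub (Finset.finite_toSet _)
  rw [Set.ncard_coe_finset] at h1
  refine h1.trans (Finset.card_image_le.trans ?_)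
  rw [Finset.card_product, Finset.card_range]
  exact Nat.mul_le_mul_left _ (up_W_card _)

end Pool.Agent.Q109.AS
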