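import Pool.Agent.Q231.GrTest

/-!
# The simple graph given by an arbitrary list of edges
-/

namespace Pool.Agent.Q231.Gr

open Pool.Agent.NPC Pool.Agent.NPC.H634R2

/-- the vertices -/
def normV (L : List (ℕ × ℕ)) : List ℕ := (L.flatMap (fun e => [e.1, e.2])).dedup

/-- the edges, every one of them listed once, with increasing ends -/
def normE (L : List (ℕ × ℕ)) : List (ℕ × ℕ) :=
  (normV L ×ˢ normV L).filter (fun p => decide (p.1 < p.2) &&
    (decide (p ∈ L) || decide ((p.2, p.1) ∈ L)))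

theorem mem_normV {L : List (ℕ × ℕ)} {v : ℕ} : v ∈ normV L ↔ ∃ e ∈ L, v = e.1 ∨ v = e.2 := by
  unfold normV
  rw [List.mem_dedup, List.mem_flatMap]
  simp

theorem mem_normE {L : List (ℕ × ℕ)} {u v : ℕ} :
    (u, v) ∈ normE L ↔ u < v ∧ ((u, v) ∈ L ∨ (v, u) ∈ L) := by
  unfold normE
  rw [List.mem_filter, List.mem_product]
  simp only [Bool.and_eq_true, decide_eq_true_eq, Bool.or_eq_true, mem_normV]
  constructor
  · rintro ⟨_, h⟩
    exact h
  · rintro ⟨h, h'⟩
    refine ⟨⟨?_, ?_⟩, h, h'⟩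
    · rcases h' with h' | h'
      · exact ⟨_, h', Or.inl rfl⟩
      · exact ⟨_, h', Or.inr rfl⟩
    · rcases h' with h' | h'
      · exact ⟨_, h', Or.inr rfl⟩
      · exact ⟨_, h', Or.inl rfl⟩

theorem isGraph_norm (L : List (ℕ × ℕ)) : IsGraph (normV L) (normE L) := by
  refine ⟨List.nodup_dedup _, ?_, ?_⟩
  · rintro ⟨u, v⟩ he
    have h1 := mem_normE.1 he
    unfold normE at he
    rw [List.mem_filter, List.mem_product] at he
    exact ⟨he.1.1, he.1.2, Nat.ne_of_lt h1.1⟩
  · refine List.Nodup.map_on ?_ ((List.Nodup.product (List.nodup_dedup _)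
      (List.nodup_dedup _)).filter _)
    rintro ⟨u, v⟩ he ⟨u', v'⟩ he' h
    have h1 := (mem_normE.1 he).1
    have h2 := (mem_normE.1 he').1
    rw [Sym2.eq_iff] at h
    simp only at h h1 h2
    rcases h with ⟨rfl, rfl⟩ | ⟨rfl, rfl⟩
    · rfl
    · omega

/-- A symmetric property holds on all edges if and only if it holds on the given pairs. -/
theorem forall_normE {L : List (ℕ × ℕ)} (hL : ∀ e ∈ L, e.1 ≠ e.2) {P : ℕ → ℕ → Prop}
    (hP : ∀ u v, P u v → P v u) : (∀ e ∈ normE L, P e.1 e.2) ↔ ∀ e ∈ L, P e.1 e.2 := by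
  constructor
  · rintro h ⟨u, v⟩ he
    have hne := hL _ he
    simp only at hne ⊢
    rcases Nat.lt_or_gt_of_ne hne with hlt | hlt
    · exact h (u, v) (mem_normE.2 ⟨hlt, Or.inl he⟩)
    · exact hP _ _ (h (v, u) (mem_normE.2 ⟨hlt, Or.inr he⟩))
  · rintro h ⟨u, v⟩ he
    obtain ⟨_, h1 | h1⟩ := mem_normE.1 he
    · exact h _ h1
    · exact hP _ _ (h _ h1)

attribute [local fun_prop] poly_dedup

theorem normV_poly {α : Type} [TEnc α] {L : α → List (ℕ × ℕ)} (h : Poly L) :
    Poly (fun a => normV (L a)) := by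
  unfold normV
  fun_prop

attribute [local fun_prop] normV_poly

theorem normE_poly {α : Type} [TEnc α] {L : α → List (ℕ × ℕ)} (h : Poly L) :
    Poly (fun a => normE (L a)) := by
  unfold normE
  fun_prop

end Pool.Agent.Q231.Gr
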