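import Pool.Agent.Q37.GU.Stm
import Pool.Agent.Q37.GU.Basic

/-!
Project GU, job F6: a conjugate of a test variety has a nonconstant branch.
-/

open CategoryTheory CategoryTheory.Limits AlgebraicGeometry Topology
open Pool.Agent.W481 Pool.Agent.Q37.GU

namespace Pool.Agent.Q231.GU_F6

section ring

variable (ν : ℂ)

/-- the inverted polynomial -/
noncomputable abbrev Fp : Polynomial ℂ :=
  Polynomial.X * (Polynomial.X - 1) * (Polynomial.X - Polynomial.C ν)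

theorem Fp_eval (z : ℂ) : (Fp ν).eval z = z * (z - 1) * (z - ν) := by
  simp [Fp]

theorem Fp_ne : Fp ν ≠ 0 := by
  refine mul_ne_zero (mul_ne_zero Polynomial.X_ne_zero ?_) (Polynomial.X_sub_C_ne_zero ν)
  have := Polynomial.X_sub_C_ne_zero (1 : ℂ)
  rwa [map_one] at this

theorem isUnit_F : IsUnit (algebraMap (Polynomial ℂ) (RR ν) (Fp ν)) :=
  IsLocalization.Away.algebraMap_isUnit (S := RR ν) (Fp ν)

theorem map_F (φ : RR ν →ₐ[ℂ] ℂ) : φ (algebraMap (Polynomial ℂ) (RR ν) (Fp ν)) =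
    φ (RR.t ν) * (φ (RR.t ν) - 1) * (φ (RR.t ν) - ν) := by
  have h : φ (algebraMap (Polynomial ℂ) (RR ν) (Polynomial.C ν)) = ν := by
    have h1 : algebraMap (Polynomial ℂ) (RR ν) (Polynomial.C ν) = algebraMap ℂ (RR ν) ν := by
      rw [IsScalarTower.algebraMap_apply ℂ (Polynomial ℂ) (RR ν) ν]
      rfl
    rw [h1]
    exact φ.commutes ν
  simp only [Fp, map_mul, map_sub, map_one, h]
  rfl

theorem val_om (φ : RR ν →ₐ[ℂ] ℂ) : φ (RR.t ν) ∈ Om ν := by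
  have h := (isUnit_F ν).map φ
  rw [map_F] at h
  have h2 := h.ne_zero
  refine ⟨fun h3 => h2 ?_, fun h3 => h2 ?_, fun h3 => h2 ?_⟩
  · rw [h3]; ring
  · rw [h3]; ring
  · rw [h3]; ring

/-- evaluation -/
noncomputable def ev (z : ℂ) (hz : z ∈ Om ν) : RR ν →ₐ[ℂ] ℂ :=
  IsLocalization.liftAlgHom (M := Submonoid.powers (Fp ν))
    (f := Polynomial.aeval z) (by
      rintro ⟨_, n, rfl⟩
      have h : (Polynomial.aeval z) (Fp ν) = z * (z - 1) * (z - ν) := by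
        rw [← Fp_eval]
        simp [Polynomial.aeval_def, Polynomial.eval₂_eq_eval_map]
      have h2 : (Polynomial.aeval z) ((fun k => Fp ν ^ k) n) = (z * (z - 1) * (z - ν)) ^ n := by
        show (Polynomial.aeval z) (Fp ν ^ n) = _
        rw [map_pow, h]
      show IsUnit ((Polynomial.aeval z) ((fun k => Fp ν ^ k) n))
      rw [h2]
      refine IsUnit.pow n (isUnit_iff_ne_zero.2 ?_)
      exact mul_ne_zero (mul_ne_zero hz.1 (sub_ne_zero.2 hz.2.1)) (sub_ne_zero.2 hz.2.2))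

theorem ev_t (z : ℂ) (hz : z ∈ Om ν) : ev ν z hz (RR.t ν) = z := by
  show IsLocalization.liftAlgHom _ _ = _
  rw [RR.t, IsLocalization.liftAlgHom_apply, IsLocalization.lift_eq]
  simp

theorem exists_two : ∃ a ∈ Om ν, ∃ b ∈ Om ν, a ≠ b := by
  have h : (({0, 1, ν} : Set ℂ)ᶜ).Infinite := (Set.Finite.infinite_compl (Set.toFinite _))
  obtain ⟨a, ha, b, hb, hab⟩ := h.nontrivial
  have key : ∀ z, z ∈ (({0, 1, ν} : Set ℂ)ᶜ) → z ∈ Om ν := by
    intro z hz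
    simp only [Set.mem_compl_iff, Set.mem_insert_iff, Set.mem_singleton_iff, not_or] at hz
    exact hz
  exact ⟨a, key a ha, b, key b hb, hab⟩

instance : IsDomain (RR ν) :=
  IsLocalization.isDomain_localization (powers_le_nonZeroDivisors_of_noZeroDivisors (Fp_ne ν))

end ring

theorem conj_val (σ : ℂ ≃+* ℂ) {A : Type} [CommRing A] [Algebra ℂ A] (φ : A →ₐ[ℂ] ℂ) (a : A)
    (u : Γ((conj σ (specOver A)).left, ⊤)) (hu : u = glob a) :
    vf u (conjPt σ (ptOf φ)) = σ (φ a) := by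
  subst hu
  have h1 : (conjPt σ (ptOf φ)).mor = Spec.map (CommRingCat.ofHom
      ((σ : ℂ →+* ℂ).comp φ.toRingHom)) := by
    rw [CommRingCat.ofHom_comp, Spec.map_comp]
    rfl
  exact value_inv_eq (A := A) (Spec.map (CommRingCat.ofHom (algebraMap ℂ A)) ≫
    specAut σ.symm) (conjPt σ (ptOf φ)) _ h1 a

theorem comp_lem (σ : ℂ ≃+* ℂ) {Y : Scheme.{0}} (m : SpecC ⟶ Y) (k : Y ⟶ SpecC)
    (h3 : m ≫ k ≫ specAut σ.symm = 𝟙 SpecC) : (specAut σ.symm ≫ m) ≫ k = 𝟙 SpecC := by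
  have h2 : specAut σ.symm ≫ specAut σ = 𝟙 SpecC := by simpa using specAut_comp σ.symm
  have h4 : m ≫ k = specAut σ := by
    have h5 := congrArg (fun m => m ≫ specAut σ) h3
    simp only [Category.assoc, h2, Category.comp_id, Category.id_comp] at h5
    exact h5
  rw [Category.assoc, h4, h2]

theorem conjPt_surj (σ : ℂ ≃+* ℂ) {X : Over SpecC} (y : Pt (conj σ X)) :
    ∃ x : Pt X, conjPt σ x = y := by
  have h0 := pt_mor_hom y
  refine ⟨Pt.mk' (X := X) (specAut σ.symm ≫ y.mor) (comp_lem σ (Y := X.left) y.mor X.hom h0), ?_⟩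
  apply Pt.ext_mor
  show specAut σ ≫ (specAut σ.symm ≫ y.mor) = y.mor
  rw [← Category.assoc, specAut_comp, Category.id_comp]

theorem isBr_id (μ : ℂ) (Y : Over SpecC) (u : Γ(Y.left, ⊤)) (hu : ∀ z : Pt Y, vf u z ∈ Om μ)
    (y : Pt Y) : IsBr μ Y y (gm (vf u) y) := by
  have hid : pushC (𝟙 Y) y = y := Category.comp_id (show Over.mk (𝟙 SpecC) ⟶ Y from y)
  refine ⟨Y, 𝟙 Y, ?_, ?_, u, hu, y, hid, ?_⟩
  · rw [Over.id_left]; infer_instance
  · rw [Over.id_left]; infer_instance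
  · rw [gp_gm]
    congr 1

theorem not_cst (h2 : S_T2) (h9 : S_T9) (Y : Over SpecC) (hsm : Smooth Y.hom)
    (hconn : ConnectedSpace Y.left) (u : Γ(Y.left, ⊤)) (y a b : Pt Y)
    (hab : vf u a ≠ vf u b) : ¬ Cst (gm (vf u) y) := by
  rintro ⟨c, hc⟩
  obtain ⟨v, hv⟩ := h9 Y c
  have hvc : (vf v : Pt Y → ℂ) = fun _ => c := funext hv
  have key : ∀ z : Pt Y, vf u z = c := by
    intro z
    obtain ⟨p, -⟩ := conn_main Y hsm hconn y z
    have h3 := h2 Y hsm u v y z (p 0) (by rw [hc, hvc])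
    rw [hvc, gm_eq_iff] at h3
    exact h3.self_of_nhds
  exact hab ((key a).trans (key b).symm)

theorem exists_u (σ : ℂ ≃+* ℂ) {A : Type} [CommRing A] [Algebra ℂ A] (a : A) :
    ∃ u : Γ((conj σ (specOver A)).left, ⊤), ∀ φ : A →ₐ[ℂ] ℂ,
      vf u (conjPt σ (ptOf φ)) = σ (φ a) :=
  ⟨glob a, fun φ => conj_val σ φ a _ rfl⟩

theorem f6_aux (h2 : S_T2) (h9 : S_T9) (μ ν : ℂ) (σ : ℂ ≃+* ℂ) (hσν : σ ν = μ)
    (hsm : Smooth (conj σ (specOver (RR ν))).hom) : Nonempty (Pt (specOver (RR ν))) ∧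
      ∀ x : Pt (specOver (RR ν)), Nonempty (NB μ (conj σ (specOver (RR ν))) (conjPt σ x)) := by
  have hom : ∀ z, z ∈ Om ν → σ z ∈ Om μ := by
    intro z hz
    refine ⟨fun h => hz.1 ?_, fun h => hz.2.1 ?_, fun h => hz.2.2 ?_⟩
    · exact (map_eq_zero_iff σ σ.injective).1 h
    · exact (map_eq_one_iff σ σ.injective).1 h
    · rw [← hσν] at h
      exact σ.injective h
  obtain ⟨a, ha, b, hb, hab⟩ := exists_two ν
  refine ⟨⟨ptOf (ev ν a ha)⟩, fun x => ?_⟩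
  obtain ⟨u, hval⟩ := exists_u σ (RR.t ν)
  have hOm : ∀ z : Pt (conj σ (specOver (RR ν))), vf u z ∈ Om μ := by
    intro z
    obtain ⟨x, rfl⟩ := conjPt_surj σ (X := specOver (RR ν)) z
    obtain ⟨φ, rfl⟩ := ptOf_surjective x
    rw [hval φ]
    exact hom _ (val_om ν φ)
  have hconn : ConnectedSpace (conj σ (specOver (RR ν))).left :=
    inferInstanceAs (ConnectedSpace (Spec (.of (RR ν))))
  refine ⟨⟨gm (vf u) (conjPt σ x), isBr_id μ _ u hOm _,
    not_cst h2 h9 _ hsm hconn u _ (conjPt σ (ptOf (ev ν a ha)))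
      (conjPt σ (ptOf (ev ν b hb))) ?_⟩⟩
  rw [hval, hval, ev_t, ev_t]
  exact fun h => hab (σ.injective h)

theorem f6 (h2 : S_T2) (h9 : S_T9) : S_F6 := by
  intro μ σ X hX
  have H : ∀ Y : Over SpecC, Y = specOver (RR (σ.symm μ)) → Smooth (conj σ Y).hom →
      Nonempty (Pt Y) ∧ ∀ x : Pt Y, Nonempty (NB μ (conj σ Y) (conjPt σ x)) := by
    rintro Y rfl hY
    exact f6_aux h2 h9 μ (σ.symm μ) σ (by simp) hY
  exact H X.sch hX (X.conj σ).smooth

end Pool.Agent.Q231.GU_F6
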