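import Pool.Agent.Q37.GU.Stm

/-!
# Project GU: descent of étale algebras (job Q2a)
-/

set_option autoImplicit false

open scoped TensorProduct

namespace Pool.Agent.Q231.GU_Q2a

open Pool.Agent.Q37.GU

section gen

variable {k L : Type} [Field k] [CommRing L] [Algebra k L] {A0 : Type} [CommRing A0] [Algebra k A0]

/-- the map from the tensor product of a subalgebra -/
noncomputable def ph (A0 : Type) [CommRing A0] [Algebra k A0] (S : Subalgebra k L) :
    S ⊗[k] A0 →ₐ[k] L ⊗[k] A0 :=
  Algebra.TensorProduct.map S.val (AlgHom.id k A0)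

theorem ph_inj (S : Subalgebra k L) : Function.Injective (ph A0 S) := by
  have h := Module.Flat.rTensor_preserves_injective_linearMap (M := A0) S.val.toLinearMap
    Subtype.val_injective
  exact h

theorem ph_mono {S S' : Subalgebra k L} (h : S ≤ S') : (ph A0 S).range ≤ (ph A0 S').range := by
  rintro _ ⟨t, rfl⟩
  refine ⟨Algebra.TensorProduct.map (Subalgebra.inclusion h) (AlgHom.id k A0) t, ?_⟩
  show ph A0 S' (Algebra.TensorProduct.map (Subalgebra.inclusion h) (AlgHom.id k A0) t) = ph A0 S t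
  unfold ph
  rw [← AlgHom.comp_apply, ← Algebra.TensorProduct.map_comp]
  rfl

theorem exists_one (t : L ⊗[k] A0) : ∃ S : Subalgebra k L, S.FG ∧ t ∈ (ph A0 S).range := by
  classical
  induction t using TensorProduct.induction_on with
  | zero => exact ⟨⊥, Subalgebra.fg_bot, zero_mem _⟩
  | tmul l a =>
    refine ⟨Algebra.adjoin k {l}, ⟨{l}, by simp⟩, ?_⟩
    exact ⟨(⟨l, Algebra.self_mem_adjoin_singleton k l⟩ : Algebra.adjoin k {l}) ⊗ₜ a, rfl⟩
  | add x y hx hy =>
    obtain ⟨S, hS, hx⟩ := hx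
    obtain ⟨S', hS', hy⟩ := hy
    exact ⟨S ⊔ S', hS.sup hS', add_mem (ph_mono le_sup_left hx) (ph_mono le_sup_right hy)⟩

theorem exists_fin (F : Finset (L ⊗[k] A0)) : ∃ S : Subalgebra k L, S.FG ∧
    ∀ t ∈ F, t ∈ (ph A0 S).range := by
  classical
  induction F using Finset.induction_on with
  | empty => exact ⟨⊥, Subalgebra.fg_bot, by simp⟩
  | insert t F _ ih =>
    obtain ⟨S, hS, h⟩ := ih
    obtain ⟨S', hS', h'⟩ := exists_one (k := k) t
    refine ⟨S ⊔ S', hS.sup hS', ?_⟩
    intro x hx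
    rcases Finset.mem_insert.1 hx with rfl | hx
    · exact ph_mono le_sup_right h'
    · exact ph_mono le_sup_left (h x hx)

theorem main (C : Type) [CommRing C] [Algebra (L ⊗[k] A0) C] [Algebra.Etale (L ⊗[k] A0) C] :
    ∃ (S₀ : Subalgebra k L) (_ : S₀.FG) (g : Finset C)
    (_ : Algebra.adjoin (L ⊗[k] A0) (g : Set C) = ⊤), ∀ (S : Subalgebra k L), S₀ ≤ S →
  ∃ (D : Type) (_ : CommRing D) (_ : Algebra (S ⊗[k] A0) D) (_ : Algebra.Etale (S ⊗[k] A0) D)
    (j : D →+* C) (_ : Function.Injective j) (_ : ∀ t : S ⊗[k] A0,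
      j (algebraMap (S ⊗[k] A0) D t) =
        algebraMap (L ⊗[k] A0) C (ph A0 S t)),
    j.range = Subring.closure (Set.range (fun t : S ⊗[k] A0 =>
      algebraMap (L ⊗[k] A0) C (ph A0 S t)) ∪ g) := by
  classical
  obtain ⟨A', B', hB1, hB2, hfg, het, ⟨e⟩⟩ :=
    Algebra.Etale.exists_subalgebra_fg (R := k) (A := L ⊗[k] A0) (B := C)
  obtain ⟨F, hF⟩ := hfg
  obtain ⟨S₀, hS₀, hFS⟩ := exists_fin (k := k) F
  have hft : Algebra.FiniteType A' B' := inferInstance
  obtain ⟨G, hG⟩ := hft.out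
  refine ⟨S₀, hS₀, G.image fun b => e.symm (1 ⊗ₜ b), ?_, ?_⟩
  · -- generators
    rw [eq_top_iff]
    rintro c -
    obtain ⟨t, rfl⟩ := e.symm.surjective c
    have hb : ∀ b : B', e.symm (1 ⊗ₜ b) ∈ Algebra.adjoin (L ⊗[k] A0)
        ((G.image fun b => e.symm (1 ⊗ₜ[A'] b) : Finset C) : Set C) := by
      intro b
      have h1 : b ∈ Algebra.adjoin A' (G : Set B') := by
        rw [hG]
        exact Algebra.mem_top
      induction h1 using Algebra.adjoin_induction with
      | mem b hb =>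
        apply Algebra.subset_adjoin
        exact Finset.mem_coe.2 (Finset.mem_image.2 ⟨b, hb, rfl⟩)
      | algebraMap a =>
        have h2 : (1 : L ⊗[k] A0) ⊗ₜ[A'] (algebraMap A' B' a) =
            algebraMap (L ⊗[k] A0) ((L ⊗[k] A0) ⊗[A'] B') (a : L ⊗[k] A0) := by
          rw [Algebra.TensorProduct.algebraMap_apply, Algebra.algebraMap_eq_smul_one,
            TensorProduct.tmul_smul, TensorProduct.smul_tmul']
          congr 1
          rw [Algebra.smul_def, mul_one]
          rfl
        rw [h2, AlgEquiv.commutes]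
        exact Subalgebra.algebraMap_mem _ _
      | add x y _ _ hx hy =>
        rw [TensorProduct.tmul_add, map_add]
        exact add_mem hx hy
      | mul x y _ _ hx hy =>
        have h2 : (1 : L ⊗[k] A0) ⊗ₜ[A'] (x * y) = (1 ⊗ₜ x) * (1 ⊗ₜ y) := by
          rw [Algebra.TensorProduct.tmul_mul_tmul, mul_one]
        rw [h2, map_mul]
        exact mul_mem hx hy
    induction t using TensorProduct.induction_on with
    | zero => rw [map_zero]; exact zero_mem _
    | tmul t b =>
      have h2 : t ⊗ₜ[A'] b = t • ((1 : L ⊗[k] A0) ⊗ₜ[A'] b) := by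
        rw [TensorProduct.smul_tmul', smul_eq_mul, mul_one]
      rw [h2, map_smul]
      exact Subalgebra.smul_mem _ (hb b) _
    | add x y hx hy => rw [map_add]; exact add_mem hx hy
  · intro S hS
    have hA' : A' ≤ (ph A0 S).range := by
      rw [← hF, Algebra.adjoin_le_iff]
      intro t ht
      exact ph_mono hS (hFS t ht)
    -- the map from `A'`
    let eS : (S ⊗[k] A0) ≃ₐ[k] (ph A0 S).range := AlgEquiv.ofInjective (ph A0 S) (ph_inj S)
    let io : A' →ₐ[k] (S ⊗[k] A0) := (eS.symm : (ph A0 S).range →ₐ[k] (S ⊗[k] A0)).comp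
      (Subalgebra.inclusion hA')
    have hio : ∀ a : A', ph A0 S (io a) = (a : L ⊗[k] A0) := by
      intro a
      have h1 : eS (eS.symm (Subalgebra.inclusion hA' a)) = Subalgebra.inclusion hA' a :=
        eS.apply_symm_apply _
      exact congrArg Subtype.val h1
    letI : Algebra A' (S ⊗[k] A0) := io.toRingHom.toAlgebra
    have haio : ∀ a : A', algebraMap A' (S ⊗[k] A0) a = io a := fun a => rfl
    let ph' : (S ⊗[k] A0) →ₐ[A'] (L ⊗[k] A0) :=
      { (ph A0 S).toRingHom with
        commutes' := fun a => hio a }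
    have hph' : ∀ t, ph' t = ph A0 S t := fun t => rfl
    have eD : Algebra.Etale (S ⊗[k] A0) ((S ⊗[k] A0) ⊗[A'] B') := inferInstance
    let j0 : ((S ⊗[k] A0) ⊗[A'] B') →ₐ[A'] (L ⊗[k] A0) ⊗[A'] B' :=
      Algebra.TensorProduct.map ph' (AlgHom.id A' B')
    have hj0t : ∀ (t : S ⊗[k] A0) (b : B'), j0 (t ⊗ₜ b) = ph A0 S t ⊗ₜ b := fun t b => rfl
    have hj0 : Function.Injective j0 := by
      have h := Module.Flat.rTensor_preserves_injective_linearMap (M := B') ph'.toLinearMap
        (ph_inj S)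
      exact h
    let j : ((S ⊗[k] A0) ⊗[A'] B') →+* C := (e.symm : (L ⊗[k] A0) ⊗[A'] B' →+* C).comp j0.toRingHom
    have hj : ∀ d, j d = e.symm (j0 d) := fun d => rfl
    have hjc : ∀ t : S ⊗[k] A0, j (t ⊗ₜ[A'] (1 : B')) =
        algebraMap (L ⊗[k] A0) C (ph A0 S t) := by
      intro t
      rw [hj]
      have h1 : j0 (t ⊗ₜ[A'] (1 : B')) =
          algebraMap (L ⊗[k] A0) ((L ⊗[k] A0) ⊗[A'] B') (ph A0 S t) := rfl
      rw [h1, AlgEquiv.commutes]
    refine ⟨(S ⊗[k] A0) ⊗[A'] B', inferInstance, inferInstance, eD, j, e.symm.injective.comp hj0, hjc, ?_⟩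
    apply le_antisymm
    · rintro _ ⟨d, rfl⟩
      set K := Subring.closure (Set.range (fun t : S ⊗[k] A0 =>
        algebraMap (L ⊗[k] A0) C (ph A0 S t)) ∪
          ((G.image fun b => e.symm (1 ⊗ₜ[A'] b) : Finset C) : Set C)) with hK
      have hKt : ∀ t : S ⊗[k] A0, algebraMap (L ⊗[k] A0) C (ph A0 S t) ∈ K := fun t =>
        Subring.subset_closure (Or.inl ⟨t, rfl⟩)
      have hb : ∀ b : B', e.symm (1 ⊗ₜ b) ∈ K := by
        intro b
        have h1 : b ∈ Algebra.adjoin A' (G : Set B') := by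
          rw [hG]
          exact Algebra.mem_top
        induction h1 using Algebra.adjoin_induction with
        | mem b hb =>
          apply Subring.subset_closure
          exact Or.inr (Finset.mem_coe.2 (Finset.mem_image.2 ⟨b, hb, rfl⟩))
        | algebraMap a =>
          have h2 : (1 : L ⊗[k] A0) ⊗ₜ[A'] (algebraMap A' B' a) =
              algebraMap (L ⊗[k] A0) ((L ⊗[k] A0) ⊗[A'] B') (a : L ⊗[k] A0) := by
            rw [Algebra.TensorProduct.algebraMap_apply, Algebra.algebraMap_eq_smul_one,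
              TensorProduct.tmul_smul, TensorProduct.smul_tmul']
            congr 1
            rw [Algebra.smul_def, mul_one]
            rfl
          rw [h2, AlgEquiv.commutes, ← hio a]
          exact hKt _
        | add x y _ _ hx hy =>
          rw [TensorProduct.tmul_add, map_add]
          exact add_mem hx hy
        | mul x y _ _ hx hy =>
          have h2 : (1 : L ⊗[k] A0) ⊗ₜ[A'] (x * y) = (1 ⊗ₜ x) * (1 ⊗ₜ y) := by
            rw [Algebra.TensorProduct.tmul_mul_tmul, mul_one]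
          rw [h2, map_mul]
          exact mul_mem hx hy
      induction d using TensorProduct.induction_on with
      | zero => rw [map_zero]; exact zero_mem _
      | tmul t b =>
        rw [hj, hj0t]
        have h2 : ph A0 S t ⊗ₜ[A'] b = (ph A0 S t) • ((1 : L ⊗[k] A0) ⊗ₜ[A'] b) := by
          rw [TensorProduct.smul_tmul', smul_eq_mul, mul_one]
        rw [h2, map_smul, Algebra.smul_def]
        exact mul_mem (hKt t) (hb b)
      | add x y hx hy => rw [map_add]; exact add_mem hx hy
    · rw [Subring.closure_le]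
      rintro _ (⟨t, rfl⟩ | hc)
      · exact ⟨t ⊗ₜ[A'] (1 : B'), hjc t⟩
      · obtain ⟨b, hb, rfl⟩ := Finset.mem_image.1 (Finset.mem_coe.1 hc)
        refine ⟨(1 : S ⊗[k] A0) ⊗ₜ[A'] b, ?_⟩
        rw [hj, hj0t, map_one]

end gen

theorem q2a : S_Q2a := by
  intro A0 _ _ C _ _ _
  exact main (k := Qb) (L := ℂ) (A0 := A0) C

end Pool.Agent.Q231.GU_Q2a
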