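import Pool.Agent.Q231.OPDefs
import Pool.Agent.NPC.Sat
import Pool.Agent.H671R2.PolyAuto

/-!
# Recognising graphs whose maximal open packings have the same cardinality is coNP-hard
-/

namespace Pool.Agent.Q231.OP

open Pool.Agent.NPC Pool.Agent.NPC.H634R2

/-! ### Generalities -/

theorem adj_comm {E : List (ℕ × ℕ)} {u v : ℕ} : Adj E u v ↔ Adj E v u := or_comm

theorem exists_max {V : List ℕ} {E : List (ℕ × ℕ)} {S : Finset ℕ} (hS : OpenPacking V E S) :
    ∃ T, S ⊆ T ∧ MaxOpenPacking V E T := by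
  classical
  have hfin : ∀ k (S : Finset ℕ), OpenPacking V E S → V.toFinset.card - S.card = k →
      ∃ T, S ⊆ T ∧ MaxOpenPacking V E T := by
    intro k
    induction k using Nat.strong_induction_on with
    | _ k ih =>
      intro S hS hk
      by_cases hm : MaxOpenPacking V E S
      · exact ⟨S, Finset.Subset.refl _, hm⟩
      · unfold MaxOpenPacking at hm
        push Not at hm
        obtain ⟨T, hT, hST, hne⟩ := hm hS
        have h1 : S.card < T.card := Finset.card_lt_card
          (Finset.ssubset_iff_subset_ne.2 ⟨hST, Ne.symm hne⟩)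
        have h2 : T.card ≤ V.toFinset.card :=
          Finset.card_le_card fun v hv => List.mem_toFinset.2 (hT.1 v hv)
        obtain ⟨U, hU, hU'⟩ := ih (V.toFinset.card - T.card) (by omega) T hT rfl
        exact ⟨U, hST.trans hU, hU'⟩
  exact hfin _ S hS rfl

theorem max_blocked {V : List ℕ} {E : List (ℕ × ℕ)} {S : Finset ℕ} (hS : MaxOpenPacking V E S)
    {x : ℕ} (hx : x ∈ V) (hxS : x ∉ S) : ∃ s ∈ S, s ≠ x ∧ ∃ w, Adj E x w ∧ Adj E s w := by
  classical
  by_contra hcon
  push Not at hcon
  have h1 : OpenPacking V E (insert x S) := by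
    refine ⟨?_, ?_⟩
    · intro v hv
      rw [Finset.mem_insert] at hv
      rcases hv with rfl | hv
      · exact hx
      · exact hS.1.1 v hv
    · rintro u hu v hv huv ⟨w, h1, h2⟩
      rw [Finset.mem_insert] at hu hv
      rcases hu with rfl | hu
      · rcases hv with rfl | hv
        · exact huv rfl
        · exact hcon v hv (Ne.symm huv) w h1 h2
      · rcases hv with rfl | hv
        · exact hcon u hu huv w h2 h1
        · exact hS.1.2 u hu v hv huv ⟨w, h1, h2⟩
  have h2 := hS.2 _ h1 (Finset.subset_insert x S)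
  rw [← h2] at hxS
  exact hxS (Finset.mem_insert_self _ _)

/-! ### The reduction -/

/-- the variables of the formula, and one more -/
def vars (φ : List (List (Bool × ℕ))) : List ℕ := (0 :: φ.flatMap (fun c => c.map Prod.snd)).dedup

theorem vars_nodup (φ : List (List (Bool × ℕ))) : (vars φ).Nodup := List.nodup_dedup _

theorem zero_mem_vars (φ : List (List (Bool × ℕ))) : 0 ∈ vars φ := by simp [vars]

theorem mem_vars {φ : List (List (Bool × ℕ))} {j : ℕ} {b : Bool} {v : ℕ}
    (h : (b, v) ∈ φ.getD j []) : v ∈ vars φ := by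
  unfold vars
  rw [List.mem_dedup]
  refine List.mem_cons_of_mem _ ?_
  rw [List.mem_flatMap]
  by_cases hj : j < φ.length
  · refine ⟨φ[j], List.getElem_mem hj, ?_⟩
    rw [List.mem_map]
    refine ⟨(b, v), ?_, rfl⟩
    rwa [List.getD_eq_getElem _ _ hj] at h
  · rw [List.getD_eq_default _ _ (by omega)] at h
    simp at h

/-- the first side -/
def VA (φ : List (List (Bool × ℕ))) : List ℕ :=
  (vars φ).flatMap (fun v => [9 * v, 9 * v + 1, 9 * v + 2]) ++
    (List.range φ.length).map (fun j => 9 * j + 3) ++ [8]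

/-- the second side -/
def VB (φ : List (List (Bool × ℕ))) : List ℕ :=
  (vars φ).flatMap (fun v => [9 * v + 4, 9 * v + 5, 9 * v + 6, 9 * v + 7]) ++ [17, 26]

/-- incidence of a vertex of the second side with a vertex of the first side -/
def inc (φ : List (List (Bool × ℕ))) (b a : ℕ) : Bool :=
  if b % 9 = 4 then decide (a % 9 < 3) && decide (a / 9 = b / 9)
  else if b % 9 = 5 then decide (a % 9 = 2) && decide (a / 9 = b / 9)
  else if b % 9 = 6 then (decide (a % 9 = 0) && decide (a / 9 = b / 9)) || decide (a = 8) ||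
    (decide (a % 9 = 3) && decide ((true, b / 9) ∈ φ.getD (a / 9) []))
  else if b % 9 = 7 then (decide (a % 9 = 1) && decide (a / 9 = b / 9)) || decide (a = 8) ||
    (decide (a % 9 = 3) && decide ((false, b / 9) ∈ φ.getD (a / 9) []))
  else if b = 17 then decide (a = 8) || decide (a % 9 = 3)
  else if b = 26 then decide (a = 8)
  else false

/-- the graph -/
def red (φ : List (List (Bool × ℕ))) : List ℕ × List (ℕ × ℕ) :=
  (VA φ ++ VB φ, (VB φ ×ˢ VA φ).filter (fun p => inc φ p.1 p.2))

theorem mem_VA {φ : List (List (Bool × ℕ))} {x : ℕ} :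
    x ∈ VA φ ↔ (x % 9 < 3 ∧ x / 9 ∈ vars φ) ∨ (x % 9 = 3 ∧ x / 9 < φ.length) ∨ x = 8 := by
  unfold VA
  simp only [List.mem_append, List.mem_flatMap, List.mem_cons, List.not_mem_nil, or_false,
    List.mem_map, List.mem_range]
  constructor
  · rintro ((⟨v, hv, h⟩ | ⟨j, hj, h⟩) | h)
    · left
      have : x / 9 = v := by omega
      rw [this]
      exact ⟨by omega, hv⟩
    · right; left
      omega
    · right; right; exact h
  · rintro (⟨h, hv⟩ | ⟨h, h'⟩ | h)
    · left; left
      exact ⟨x / 9, hv, by omega⟩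
    · left; right
      exact ⟨x / 9, h', by omega⟩
    · right; exact h

theorem mem_VB {φ : List (List (Bool × ℕ))} {x : ℕ} :
    x ∈ VB φ ↔ (4 ≤ x % 9 ∧ x % 9 < 8 ∧ x / 9 ∈ vars φ) ∨ x = 17 ∨ x = 26 := by
  unfold VB
  simp only [List.mem_append, List.mem_flatMap, List.mem_cons, List.not_mem_nil, or_false]
  constructor
  · rintro (⟨v, hv, h⟩ | h)
    · left
      have : x / 9 = v := by omega
      rw [this]
      exact ⟨by omega, by omega, hv⟩
    · right; exact h
  · rintro (⟨h, h', hv⟩ | h)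
    · left
      exact ⟨x / 9, hv, by omega⟩
    · right; exact h

theorem disj {φ : List (List (Bool × ℕ))} {x : ℕ} (h : x ∈ VA φ) (h' : x ∈ VB φ) : False := by
  rw [mem_VA] at h
  rw [mem_VB] at h'
  rcases h with ⟨h, _⟩ | ⟨h, _⟩ | h <;> rcases h' with ⟨h1, h2, _⟩ | h1 | h1 <;> omega

theorem VA_nodup (φ : List (List (Bool × ℕ))) : (VA φ).Nodup := by
  unfold VA
  rw [List.nodup_append, List.nodup_append]
  refine ⟨⟨?_, ?_, ?_⟩, by simp, ?_⟩
  · rw [List.nodup_flatMap]
    refine ⟨fun v _ => by simp, ?_⟩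
    refine (vars_nodup φ).imp ?_
    intro a b hab
    simp only [Function.onFun, List.disjoint_left, List.mem_cons, List.not_mem_nil, or_false]
    intro x hx hx'
    omega
  · refine List.Nodup.map ?_ List.nodup_range
    intro a b hab
    simp only at hab
    omega
  · intro a ha b hb
    simp only [List.mem_flatMap, List.mem_cons, List.not_mem_nil, or_false, List.mem_map,
      List.mem_range] at ha hb
    obtain ⟨v, _, ha⟩ := ha
    obtain ⟨j, _, hb⟩ := hb
    omega
  · intro a ha b hb
    simp only [List.mem_append, List.mem_flatMap, List.mem_cons, List.not_mem_nil, or_false,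
      List.mem_map, List.mem_range] at ha hb
    rcases ha with ⟨v, _, ha⟩ | ⟨j, _, ha⟩ <;> omega

theorem VB_nodup (φ : List (List (Bool × ℕ))) : (VB φ).Nodup := by
  unfold VB
  rw [List.nodup_append]
  refine ⟨?_, by simp, ?_⟩
  · rw [List.nodup_flatMap]
    refine ⟨fun v _ => by simp, ?_⟩
    refine (vars_nodup φ).imp ?_
    intro a b hab
    simp only [Function.onFun, List.disjoint_left, List.mem_cons, List.not_mem_nil, or_false]
    intro x hx hx'
    omega
  · intro a ha b hb
    simp only [List.mem_flatMap, List.mem_cons, List.not_mem_nil, or_false] at ha hb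
    obtain ⟨v, _, ha⟩ := ha
    omega

theorem isGraph_red (φ : List (List (Bool × ℕ))) : IsGraph (red φ).1 (red φ).2 := by
  unfold red
  refine ⟨?_, ?_, ?_⟩
  · simp only
    rw [List.nodup_append]
    exact ⟨VA_nodup φ, VB_nodup φ, fun a ha b hb hab => disj ha (hab ▸ hb)⟩
  · rintro ⟨x, y⟩ h
    simp only [List.mem_filter] at h
    have h1 := List.pair_mem_product.1 h.1
    refine ⟨List.mem_append_right _ h1.1, List.mem_append_left _ h1.2, ?_⟩
    rintro hxy
    simp only at hxy
    subst hxy
    exact disj h1.2 h1.1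
  · refine List.Nodup.map_on ?_ (((VB_nodup φ).product (VA_nodup φ)).filter _)
    rintro ⟨a, b⟩ ha ⟨c, d⟩ hc h
    simp only [List.mem_filter] at ha hc
    simp only [Sym2.eq_iff] at h
    have h1 := List.pair_mem_product.1 ha.1
    have h2 := List.pair_mem_product.1 hc.1
    rcases h with ⟨rfl, rfl⟩ | ⟨rfl, rfl⟩
    · rfl
    · exact absurd h2.1 (fun h => disj h1.2 h)

theorem bip_red (φ : List (List (Bool × ℕ))) : Bip (red φ).2 := by
  classical
  refine ⟨fun x => decide (x ∈ VA φ), ?_⟩
  rintro ⟨x, y⟩ h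
  simp only [red, List.mem_filter] at h
  have h1 := List.pair_mem_product.1 h.1
  have h2 : x ∉ VA φ := fun h => disj h h1.1
  simp [h2, h1.2]

theorem adj_iff {φ : List (List (Bool × ℕ))} {x y : ℕ} : Adj (red φ).2 x y ↔
    (x ∈ VB φ ∧ y ∈ VA φ ∧ inc φ x y = true) ∨ (y ∈ VB φ ∧ x ∈ VA φ ∧ inc φ y x = true) := by
  unfold Adj red
  have e1 : ∀ x y : ℕ, (x, y) ∈ VB φ ×ˢ VA φ ↔ x ∈ VB φ ∧ y ∈ VA φ :=
    fun x y => List.pair_mem_product
  rw [List.mem_filter, List.mem_filter, e1, e1]
  tauto

/-- neighbours of a vertex of the first side -/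
theorem adj_A {φ : List (List (Bool × ℕ))} {x y : ℕ} (hx : x ∈ VA φ) : Adj (red φ).2 x y ↔
    y ∈ VB φ ∧ inc φ y x = true := by
  rw [adj_iff]
  constructor
  · rintro (⟨h, _⟩ | ⟨h, _, h'⟩)
    · exact absurd h (fun h => disj hx h)
    · exact ⟨h, h'⟩
  · rintro ⟨h, h'⟩; exact Or.inr ⟨h, hx, h'⟩

/-- neighbours of a vertex of the second side -/
theorem adj_B {φ : List (List (Bool × ℕ))} {x y : ℕ} (hx : x ∈ VB φ) : Adj (red φ).2 x y ↔
    y ∈ VA φ ∧ inc φ x y = true := by
  rw [adj_iff]
  constructor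
  · rintro (⟨_, h, h'⟩ | ⟨_, h, _⟩)
    · exact ⟨h, h'⟩
    · exact absurd h (fun h => disj h hx)
  · rintro ⟨h, h'⟩; exact Or.inl ⟨hx, h, h'⟩

/-- the centre of the cell of a vertex -/
def rho (x : ℕ) : ℕ :=
  if x % 9 < 3 then 9 * (x / 9) + 4
  else if x % 9 = 3 then 17
  else if x % 9 < 6 then 9 * (x / 9) + 2
  else if x = 8 then 17
  else 8

/-- the centres of the cells -/
def cen (φ : List (List (Bool × ℕ))) : Finset ℕ :=
  (vars φ).toFinset.image (fun v => 9 * v + 4) ∪ (vars φ).toFinset.image (fun v => 9 * v + 2) ∪ {8}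

theorem adj_rho {φ : List (List (Bool × ℕ))} {x : ℕ} (hx : x ∈ VA φ ++ VB φ) :
    Adj (red φ).2 x (rho x) := by
  rw [List.mem_append] at hx
  rcases hx with hx | hx
  · rw [adj_A hx]
    have h := mem_VA.1 hx
    rcases h with ⟨h, h'⟩ | ⟨h, h'⟩ | rfl
    · have e : rho x = 9 * (x / 9) + 4 := by simp [rho, h]
      rw [e, mem_VB]
      refine ⟨Or.inl ⟨by omega, by omega, ?_⟩, ?_⟩
      · rwa [show (9 * (x / 9) + 4) / 9 = x / 9 by omega]
      · simp [inc, show (9 * (x / 9) + 4) % 9 = 4 by omega, h,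
          show (9 * (x / 9) + 4) / 9 = x / 9 by omega]
    · have e : rho x = 17 := by simp [rho, h]
      rw [e, mem_VB]
      exact ⟨Or.inr (Or.inl rfl), by simp [inc, h]⟩
    · have e : rho 8 = 17 := by simp [rho]
      rw [e, mem_VB]
      exact ⟨Or.inr (Or.inl rfl), by simp [inc]⟩
  · rw [adj_B hx]
    have h := mem_VB.1 hx
    rcases h with ⟨h, h', hv⟩ | rfl | rfl
    · by_cases h6 : x % 9 < 6
      · have e : rho x = 9 * (x / 9) + 2 := by
          simp [rho, h6, show ¬ x % 9 < 3 by omega, show ¬ x % 9 = 3 by omega]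
        rw [e, mem_VA]
        refine ⟨Or.inl ⟨by omega, ?_⟩, ?_⟩
        · rwa [show (9 * (x / 9) + 2) / 9 = x / 9 by omega]
        · rcases (by omega : x % 9 = 4 ∨ x % 9 = 5) with h | h
          · simp [inc, h, show (9 * (x / 9) + 2) % 9 = 2 by omega,
              show (9 * (x / 9) + 2) / 9 = x / 9 by omega]
          · simp [inc, h, show (9 * (x / 9) + 2) % 9 = 2 by omega,
              show (9 * (x / 9) + 2) / 9 = x / 9 by omega]
      · have e : rho x = 8 := by
          simp [rho, h6, show ¬ x % 9 < 3 by omega, show ¬ x % 9 = 3 by omega,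
            show ¬ x = 8 by omega]
        rw [e, mem_VA]
        refine ⟨Or.inr (Or.inr rfl), ?_⟩
        rcases (by omega : x % 9 = 6 ∨ x % 9 = 7) with h | h
        · simp [inc, h]
        · simp [inc, h]
    · have e : rho 17 = 8 := by simp [rho]
      rw [e, mem_VA]
      exact ⟨Or.inr (Or.inr rfl), by simp [inc]⟩
    · have e : rho 26 = 8 := by simp [rho]
      rw [e, mem_VA]
      exact ⟨Or.inr (Or.inr rfl), by simp [inc]⟩

theorem rho_mem {φ : List (List (Bool × ℕ))} {x : ℕ} (hx : x ∈ VA φ ++ VB φ) :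
    rho x ∈ cen φ ∨ rho x = 17 := by
  unfold cen
  simp only [Finset.mem_union, Finset.mem_image, List.mem_toFinset, Finset.mem_singleton]
  rw [List.mem_append, mem_VA, mem_VB] at hx
  rcases hx with (⟨h, h'⟩ | ⟨h, h'⟩ | rfl) | (⟨h, h', hv⟩ | rfl | rfl)
  · left; left; left
    exact ⟨x / 9, h', by simp [rho, h]⟩
  · right; simp [rho, h]
  · right; simp [rho]
  · by_cases h6 : x % 9 < 6
    · left; left; right
      exact ⟨x / 9, hv, by simp [rho, h6, show ¬ x % 9 < 3 by omega, show ¬ x % 9 = 3 by omega]⟩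
    · left; right
      simp [rho, h6, show ¬ x % 9 < 3 by omega, show ¬ x % 9 = 3 by omega,
            show ¬ x = 8 by omega]
  · left; right; simp [rho]
  · left; right; simp [rho]

theorem rho_inj {φ : List (List (Bool × ℕ))} {S : Finset ℕ}
    (hS : OpenPacking (VA φ ++ VB φ) (red φ).2 S) : Set.InjOn rho (S : Set ℕ) := by
  intro x hx y hy hxy
  by_contra hne
  refine hS.2 x hx y hy hne ⟨rho x, adj_rho (hS.1 x hx), ?_⟩
  rw [hxy]
  exact adj_rho (hS.1 y hy)

/-- Cells with a simplicial vertex are met by every maximal packing. -/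
theorem cen_sub {φ : List (List (Bool × ℕ))} {S : Finset ℕ}
    (hS : MaxOpenPacking (VA φ ++ VB φ) (red φ).2 S) : cen φ ⊆ S.image rho := by
  intro c hc
  rw [Finset.mem_image]
  -- the simplicial vertex of the cell
  obtain ⟨z, hzV, hzr, hz⟩ : ∃ z ∈ VA φ ++ VB φ, rho z = c ∧
      ∀ s ∈ VA φ ++ VB φ, ∀ w, Adj (red φ).2 z w → Adj (red φ).2 s w → rho s = c := by
    unfold cen at hc
    simp only [Finset.mem_union, Finset.mem_image, List.mem_toFinset, Finset.mem_singleton] at hc
    rcases hc with (⟨v, hv, rfl⟩ | ⟨v, hv, rfl⟩) | rfl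
    · -- the vertex `9 v + 2`
      have hz : 9 * v + 2 ∈ VA φ := mem_VA.2 (Or.inl ⟨by omega, by
        rwa [show (9 * v + 2) / 9 = v by omega]⟩)
      refine ⟨9 * v + 2, List.mem_append_left _ hz, ?_, ?_⟩
      · simp [rho, show (9 * v + 2) % 9 = 2 by omega]; omega
      · intro s hs w hzw hsw
        rw [adj_A hz] at hzw
        obtain ⟨hw, hi⟩ := hzw
        have hw45 : (w % 9 = 4 ∨ w % 9 = 5) ∧ w / 9 = v := by
          unfold inc at hi
          split_ifs at hi with h1 h2 h3 h4 h5 h6 <;> simp at hi <;> omega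
        rw [adj_comm, adj_B hw] at hsw
        obtain ⟨hs', hi'⟩ := hsw
        have hs3 : s % 9 < 3 ∧ s / 9 = v := by
          unfold inc at hi'
          rcases hw45.1 with h | h
          · simp [h] at hi'
            omega
          · simp [h] at hi'
            omega
        simp [rho, hs3.1, hs3.2]
    · -- the vertex `9 v + 5`
      have hz : 9 * v + 5 ∈ VB φ := mem_VB.2 (Or.inl ⟨by omega, by omega, by
        rwa [show (9 * v + 5) / 9 = v by omega]⟩)
      refine ⟨9 * v + 5, List.mem_append_right _ hz, ?_, ?_⟩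
      · simp [rho, show (9 * v + 5) % 9 = 5 by omega]; omega
      · intro s hs w hzw hsw
        rw [adj_B hz] at hzw
        obtain ⟨hw, hi⟩ := hzw
        have hw2 : w % 9 = 2 ∧ w / 9 = v := by
          unfold inc at hi
          simp [show (9 * v + 5) % 9 = 5 by omega, show (9 * v + 5) / 9 = v by omega] at hi
          exact hi
        rw [adj_comm, adj_A hw] at hsw
        obtain ⟨hs', hi'⟩ := hsw
        have hs45 : (s % 9 = 4 ∨ s % 9 = 5) ∧ s / 9 = v := by
          unfold inc at hi'
          split_ifs at hi' with h1 h2 h3 h4 h5 h6 <;> simp at hi' <;> omega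
        have e1 : ¬ s % 9 < 3 := by omega
        have e2 : ¬ s % 9 = 3 := by omega
        have e3 : s % 9 < 6 := by omega
        simp [rho, e1, e2, e3, hs45.2]
    · -- the vertex `26`
      have hz : 26 ∈ VB φ := mem_VB.2 (Or.inr (Or.inr rfl))
      refine ⟨26, List.mem_append_right _ hz, by simp [rho], ?_⟩
      intro s hs w hzw hsw
      rw [adj_B hz] at hzw
      obtain ⟨hw, hi⟩ := hzw
      have hw8 : w = 8 := by
        unfold inc at hi
        simpa using hi
      subst hw8
      rw [adj_comm, adj_A hw] at hsw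
      obtain ⟨hs', hi'⟩ := hsw
      rw [mem_VB] at hs'
      rcases hs' with ⟨h1, h2, h3⟩ | rfl | rfl
      · have : ¬ s % 9 < 6 := by
          intro h
          rcases (by omega : s % 9 = 4 ∨ s % 9 = 5) with h4 | h4
          · simp [inc, h4] at hi'
          · simp [inc, h4] at hi'
        simp [rho, this, show ¬ s % 9 < 3 by omega, show ¬ s % 9 = 3 by omega,
          show ¬ s = 8 by omega]
      · simp [rho]
      · simp [rho]
  by_cases hzS : z ∈ S
  · exact ⟨z, hzS, hzr⟩
  · obtain ⟨s, hs, hne, w, hw, hw'⟩ := max_blocked hS hzV hzS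
    exact ⟨s, hs, hz s (hS.1.1 s hs) w hw hw'⟩

theorem card_max {φ : List (List (Bool × ℕ))} {S : Finset ℕ}
    (hS : MaxOpenPacking (VA φ ++ VB φ) (red φ).2 S) :
    S.card = (cen φ).card + if ∃ x ∈ S, rho x = 17 then 1 else 0 := by
  classical
  rw [← Finset.card_image_of_injOn (rho_inj hS.1)]
  have h17 : 17 ∉ cen φ := by
    unfold cen
    simp only [Finset.mem_union, Finset.mem_image, List.mem_toFinset, Finset.mem_singleton]
    rintro ((⟨v, hv, h⟩ | ⟨v, hv, h⟩) | h) <;> omega
  split_ifs with h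
  · have : S.image rho = insert 17 (cen φ) := by
      ext c
      rw [Finset.mem_insert]
      constructor
      · intro hc
        rw [Finset.mem_image] at hc
        obtain ⟨x, hx, rfl⟩ := hc
        exact (rho_mem (hS.1.1 x hx)).symm
      · rintro (rfl | hc)
        · obtain ⟨x, hx, hx'⟩ := h
          exact Finset.mem_image.2 ⟨x, hx, hx'⟩
        · exact cen_sub hS hc
    rw [this, Finset.card_insert_of_notMem h17]
  · have : S.image rho = cen φ := by
      ext c
      constructor
      · intro hc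
        rw [Finset.mem_image] at hc
        obtain ⟨x, hx, rfl⟩ := hc
        rcases rho_mem (hS.1.1 x hx) with h' | h'
        · exact h'
        · exact absurd ⟨x, hx, h'⟩ h
      · intro hc
        exact cen_sub hS hc
    rw [this, add_zero]

/-- the code of a literal -/
def lit (b : Bool) (v : ℕ) : ℕ := if b then 9 * v else 9 * v + 1

/-- the code of the vertex joining a literal to its clauses -/
def joint (b : Bool) (v : ℕ) : ℕ := if b then 9 * v + 6 else 9 * v + 7

theorem lit_mem {φ : List (List (Bool × ℕ))} {b : Bool} {v : ℕ} (hv : v ∈ vars φ) :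
    lit b v ∈ VA φ := by
  rw [mem_VA]
  left
  cases b
  · have e1 : lit false v = 9 * v + 1 := rfl
    exact ⟨by omega, by rwa [show lit false v / 9 = v by omega]⟩
  · have e1 : lit true v = 9 * v := rfl
    exact ⟨by omega, by rwa [show lit true v / 9 = v by omega]⟩

theorem joint_mem {φ : List (List (Bool × ℕ))} {b : Bool} {v : ℕ} (hv : v ∈ vars φ) :
    joint b v ∈ VB φ := by
  rw [mem_VB]
  left
  cases b
  · have e1 : joint false v = 9 * v + 7 := rfl
    exact ⟨by omega, by omega, by rwa [show joint false v / 9 = v by omega]⟩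
  · have e1 : joint true v = 9 * v + 6 := rfl
    exact ⟨by omega, by omega, by rwa [show joint true v / 9 = v by omega]⟩

theorem joint_lit {φ : List (List (Bool × ℕ))} {b : Bool} {v : ℕ} (hv : v ∈ vars φ) :
    Adj (red φ).2 (lit b v) (joint b v) := by
  rw [adj_A (lit_mem hv)]
  refine ⟨joint_mem hv, ?_⟩
  cases b
  · simp [inc, joint, lit, show (9 * v + 7) % 9 = 7 by omega, show (9 * v + 7) / 9 = v by omega,
      show (9 * v + 1) % 9 = 1 by omega, show (9 * v + 1) / 9 = v by omega]
  · simp [inc, joint, lit, show (9 * v + 6) % 9 = 6 by omega, show (9 * v + 6) / 9 = v by omega]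

theorem joint_eight {φ : List (List (Bool × ℕ))} {b : Bool} {v : ℕ} (hv : v ∈ vars φ) :
    Adj (red φ).2 8 (joint b v) := by
  rw [adj_A (mem_VA.2 (Or.inr (Or.inr rfl)))]
  refine ⟨joint_mem hv, ?_⟩
  cases b
  · simp [inc, joint, show (9 * v + 7) % 9 = 7 by omega]
  · simp [inc, joint, show (9 * v + 6) % 9 = 6 by omega]

theorem joint_clause {φ : List (List (Bool × ℕ))} {b : Bool} {v j : ℕ} (hj : j < φ.length)
    (h : (b, v) ∈ φ.getD j []) : Adj (red φ).2 (9 * j + 3) (joint b v) := by
  have hv := mem_vars h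
  rw [adj_A (mem_VA.2 (Or.inr (Or.inl ⟨by omega, by omega⟩)))]
  refine ⟨joint_mem hv, ?_⟩
  cases b
  · simp [inc, joint, show (9 * v + 7) % 9 = 7 by omega, show (9 * v + 7) / 9 = v by omega,
      show (9 * j + 3) / 9 = j by omega, show (9 * j + 3) % 9 = 3 by omega]
    exact Or.inr (by simpa using h)
  · simp [inc, joint, show (9 * v + 6) % 9 = 6 by omega, show (9 * v + 6) / 9 = v by omega,
      show (9 * j + 3) / 9 = j by omega, show (9 * j + 3) % 9 = 3 by omega]
    exact Or.inr (by simpa using h)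

theorem rho_17 {φ : List (List (Bool × ℕ))} {x : ℕ} (hx : x ∈ VA φ ++ VB φ) (h : rho x = 17) :
    x = 8 ∨ (x % 9 = 3 ∧ x / 9 < φ.length) := by
  rw [List.mem_append, mem_VA, mem_VB] at hx
  unfold rho at h
  rcases hx with (⟨h1, h'⟩ | ⟨h1, h'⟩ | rfl) | (⟨h1, h', hv⟩ | rfl | rfl)
  · simp [h1] at h; omega
  · right; exact ⟨h1, h'⟩
  · left; rfl
  · split_ifs at h <;> omega
  · simp at h
  · simp at h

/-- A maximal packing that misses the cell of the clauses gives a satisfying assignment. -/
theorem sat_of_max {φ : List (List (Bool × ℕ))} {S : Finset ℕ}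
    (hS : MaxOpenPacking (VA φ ++ VB φ) (red φ).2 S) (h17 : ¬ ∃ x ∈ S, rho x = 17) : SAT φ := by
  classical
  refine ⟨fun v => decide (9 * v ∈ S), ?_⟩
  intro c hc
  obtain ⟨j, hj, rfl⟩ := List.getElem_of_mem hc
  have hjV : 9 * j + 3 ∈ VA φ := mem_VA.2 (Or.inr (Or.inl ⟨by omega, by omega⟩))
  have hjr : rho (9 * j + 3) = 17 := by simp [rho, show (9 * j + 3) % 9 = 3 by omega]
  have hjS : 9 * j + 3 ∉ S := fun h => h17 ⟨_, h, hjr⟩
  obtain ⟨s, hs, hne, w, hw, hsw⟩ := max_blocked hS (List.mem_append_left _ hjV) hjS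
  rw [adj_A hjV] at hw
  obtain ⟨hwB, hi⟩ := hw
  rw [adj_comm, adj_B hwB] at hsw
  obtain ⟨hsA, hi'⟩ := hsw
  have hs17 : rho s ≠ 17 := fun h => h17 ⟨s, hs, h⟩
  have hsA' := mem_VA.1 hsA
  have hs3 : s % 9 < 3 := by
    rcases hsA' with ⟨h, _⟩ | ⟨h, _⟩ | rfl
    · exact h
    · exact absurd (by simp [rho, h]) hs17
    · exact absurd (by simp [rho]) hs17
  have e3 : (9 * j + 3) % 9 = 3 := by omega
  have e4 : (9 * j + 3) / 9 = j := by omega
  have e5 : ¬ (9 * j + 3) = 8 := by omega
  unfold inc at hi hi'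
  rw [e3, e4] at hi
  split_ifs at hi hi' with h1 h2 h3 h4 h5 h6
  · simp at hi
  · simp at hi
  · -- joint true
    have hmem : (true, w / 9) ∈ φ.getD j [] := by simpa [e5] using hi
    have hs0 : s = 9 * (w / 9) := by
      simp [show ¬ s = 8 by omega, show ¬ s % 9 = 3 by omega] at hi'
      omega
    refine ⟨(true, w / 9), ?_, ?_⟩
    · rwa [List.getD_eq_getElem _ _ hj] at hmem
    · simp only [decide_eq_true_eq]
      rw [← hs0]; exact hs
  · -- joint false
    have hmem : (false, w / 9) ∈ φ.getD j [] := by simpa [e5] using hi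
    have hs0 : s = 9 * (w / 9) + 1 := by
      simp [show ¬ s = 8 by omega, show ¬ s % 9 = 3 by omega] at hi'
      omega
    refine ⟨(false, w / 9), ?_, ?_⟩
    · rwa [List.getD_eq_getElem _ _ hj] at hmem
    · simp only [decide_eq_false_iff_not]
      intro h0
      have hv := mem_vars hmem
      have : rho (9 * (w / 9)) = rho s := by
        rw [hs0]
        simp [rho, show (9 * (w / 9) + 1) % 9 = 1 by omega,
          show (9 * (w / 9) + 1) / 9 = w / 9 by omega]
      have := rho_inj hS.1 h0 hs this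
      omega
  · -- the vertex 17
    simp [show ¬ s = 8 by omega, show ¬ s % 9 = 3 by omega] at hi'
  · simp [e5] at hi

/-- A satisfying assignment gives a maximal packing that misses the cell of the clauses. -/
theorem max_of_sat {φ : List (List (Bool × ℕ))} (h : SAT φ) :
    ∃ S, MaxOpenPacking (VA φ ++ VB φ) (red φ).2 S ∧ ¬ ∃ x ∈ S, rho x = 17 := by
  classical
  obtain ⟨τ, hτ⟩ := h
  set S0 := (vars φ).toFinset.image (fun v => lit (τ v) v) with hS0
  have hl9 : ∀ b v, lit b v / 9 = v := by
    intro b v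
    cases b
    · have e1 : lit false v = 9 * v + 1 := rfl
      omega
    · have e1 : lit true v = 9 * v := rfl
      omega
  have hl3 : ∀ b v, lit b v % 9 < 3 := by
    intro b v
    cases b
    · have e1 : lit false v = 9 * v + 1 := rfl
      omega
    · have e1 : lit true v = 9 * v := rfl
      omega
  have h0 : OpenPacking (VA φ ++ VB φ) (red φ).2 S0 := by
    refine ⟨?_, ?_⟩
    · intro v hv
      simp only [hS0, Finset.mem_image, List.mem_toFinset] at hv
      obtain ⟨u, hu, rfl⟩ := hv
      exact List.mem_append_left _ (lit_mem hu)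
    · rintro x hx y hy hxy ⟨w, hw, hw'⟩
      simp only [hS0, Finset.mem_image, List.mem_toFinset] at hx hy
      obtain ⟨u, hu, rfl⟩ := hx
      obtain ⟨v, hv, rfl⟩ := hy
      have huv : u ≠ v := by rintro rfl; exact hxy rfl
      rw [adj_A (lit_mem hu)] at hw
      rw [adj_A (lit_mem hv)] at hw'
      obtain ⟨hwB, hi⟩ := hw
      obtain ⟨_, hi'⟩ := hw'
      have a1 := hl9 (τ u) u
      have a2 := hl9 (τ v) v
      have a3 := hl3 (τ u) u
      have a4 := hl3 (τ v) v
      unfold inc at hi hi'
      rw [a1] at hi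
      rw [a2] at hi'
      have b1 : ¬ lit (τ u) u = 8 := by omega
      have b2 : ¬ lit (τ v) v = 8 := by omega
      have b3 : ¬ lit (τ u) u % 9 = 3 := by omega
      have b4 : ¬ lit (τ v) v % 9 = 3 := by omega
      split_ifs at hi hi' <;>
        simp only [b1, b2, b3, b4, decide_false, Bool.or_false, Bool.false_and, Bool.and_eq_true,
          decide_eq_true_eq, Bool.false_eq_true] at hi hi' <;> omega
  obtain ⟨S, hsub, hS⟩ := exists_max h0
  refine ⟨S, hS, ?_⟩
  rintro ⟨x, hx, hx17⟩
  have hin : ∀ v ∈ vars φ, lit (τ v) v ∈ S := fun v hv => hsub (by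
    simp only [hS0, Finset.mem_image, List.mem_toFinset]
    exact ⟨v, hv, rfl⟩)
  rcases rho_17 (hS.1.1 x hx) hx17 with rfl | ⟨h3, hj⟩
  · have hv := zero_mem_vars φ
    have a3 := hl3 (τ 0) 0
    exact hS.1.2 _ hx _ (hin 0 hv) (by omega) ⟨joint (τ 0) 0, joint_eight hv, joint_lit hv⟩
  · obtain ⟨l, hl', hτl⟩ := hτ (φ[x / 9]) (List.getElem_mem hj)
    obtain ⟨b, v⟩ := l
    simp only at hτl
    have hmem : (b, v) ∈ φ.getD (x / 9) [] := by
      rwa [List.getD_eq_getElem _ _ hj]
    have hv := mem_vars hmem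
    have a3 := hl3 (τ v) v
    have hxe : x = 9 * (x / 9) + 3 := by omega
    refine hS.1.2 _ hx _ (hin v hv) (by omega) ⟨joint b v, ?_, ?_⟩
    · rw [hxe]
      have := joint_clause hj hmem
      exact this
    · rw [hτl]
      exact joint_lit hv

theorem red_correct (φ : List (List (Bool × ℕ))) : SAT φ ↔ ¬ InClass (red φ) := by
  classical
  constructor
  · intro h
    obtain ⟨S, hS, hS17⟩ := max_of_sat h
    have h8 : OpenPacking (VA φ ++ VB φ) (red φ).2 {8} := by
      refine ⟨?_, ?_⟩
      · intro v hv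
        rw [Finset.mem_singleton] at hv
        subst hv
        exact List.mem_append_left _ (mem_VA.2 (Or.inr (Or.inr rfl)))
      · intro u hu v hv huv
        rw [Finset.mem_singleton] at hu hv
        exact absurd (hu.trans hv.symm) huv
    obtain ⟨T, hsub, hT⟩ := exists_max h8
    rintro ⟨_, hcl⟩
    have h1 := hcl S T hS hT
    rw [card_max hS, card_max hT, if_neg hS17,
      if_pos ⟨8, hsub (Finset.mem_singleton_self 8), by simp [rho]⟩] at h1
    omega
  · intro h
    by_contra hns
    refine h ⟨isGraph_red φ, fun S T hS hT => ?_⟩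
    have h1 : ∃ x ∈ S, rho x = 17 := by
      by_contra hcon
      exact hns (sat_of_max hS hcon)
    have h2 : ∃ x ∈ T, rho x = 17 := by
      by_contra hcon
      exact hns (sat_of_max hT hcon)
    rw [card_max hS, card_max hT, if_pos h1, if_pos h2]

end Pool.Agent.Q231.OP
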