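import Pool.Agent.NPC.Defs
import Pool.Agent.H634R2.GraphDefs

/-!
# Graphs whose maximal open packings all have the same cardinality
-/

namespace Pool.Agent.Q231.OP

/-- Adjacency in the graph with the list `E` of edges. -/
def Adj (E : List (ℕ × ℕ)) (u v : ℕ) : Prop := (u, v) ∈ E ∨ (v, u) ∈ E

/-- `S` is an **open packing** of the graph with the list `V` of vertices and the list `E` of edges:
a set of vertices such that no two distinct vertices of `S` have a common neighbour. -/
def OpenPacking (V : List ℕ) (E : List (ℕ × ℕ)) (S : Finset ℕ) : Prop :=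
  (∀ v ∈ S, v ∈ V) ∧ ∀ u ∈ S, ∀ v ∈ S, u ≠ v → ¬ ∃ w, Adj E u w ∧ Adj E v w

/-- `S` is a **maximal** open packing: no proper superset of `S` is an open packing. -/
def MaxOpenPacking (V : List ℕ) (E : List (ℕ × ℕ)) (S : Finset ℕ) : Prop :=
  OpenPacking V E S ∧ ∀ T, OpenPacking V E T → S ⊆ T → T = S

/-- The class `C`: `(V, E)` is a finite simple graph in which every maximal open packing has the same
cardinality. -/
def InClass (G : List ℕ × List (ℕ × ℕ)) : Prop :=
  Pool.Agent.NPC.H634R2.IsGraph G.1 G.2 ∧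
    ∀ S T, MaxOpenPacking G.1 G.2 S → MaxOpenPacking G.1 G.2 T → S.card = T.card

/-- The graph is bipartite. -/
def Bip (E : List (ℕ × ℕ)) : Prop := ∃ c : ℕ → Bool, ∀ e ∈ E, c e.1 ≠ c e.2

end Pool.Agent.Q231.OP
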