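import Pool.Agent.Q231.OP
import Pool.Agent.Q231.GrTest

/-!
# Maximal open packings: polynomial time and membership in coNP
-/

namespace Pool.Agent.Q231.OP

open Pool.Agent.NPC Pool.Agent.NPC.H634R2 Pool.Agent.Q231.Gr

attribute [local fun_prop] poly_dedup Poly.range_length

theorem vars_poly {α : Type} [TEnc α] {φ : α → List (List (Bool × ℕ))} (h : Poly φ) :
    Poly (fun a => vars (φ a)) := by
  unfold vars
  fun_prop

attribute [local fun_prop] vars_poly

theorem VA_poly {α : Type} [TEnc α] {φ : α → List (List (Bool × ℕ))} (h : Poly φ) :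
    Poly (fun a => VA (φ a)) := by
  unfold VA
  fun_prop

theorem VB_poly {α : Type} [TEnc α] {φ : α → List (List (Bool × ℕ))} (h : Poly φ) :
    Poly (fun a => VB (φ a)) := by
  unfold VB
  fun_prop

theorem inc_poly {α : Type} [TEnc α] {φ : α → List (List (Bool × ℕ))} {x y : α → ℕ} (h : Poly φ)
    (hx : Poly x) (hy : Poly y) : Poly (fun a => inc (φ a) (x a) (y a)) := by
  unfold inc
  fun_prop

attribute [local fun_prop] VA_poly VB_poly inc_poly

theorem red_poly : Poly red := by
  unfold red
  fun_prop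

/-- Hardness for bipartite graphs. -/
theorem hardPr : HardPr (fun G : List ℕ × List (ℕ × ℕ) => IsGraph G.1 G.2 ∧ Bip G.2)
    (fun G => ¬ InClass G) := by
  have h : HardPr (fun _ : List (List (Bool × ℕ)) => True) SAT := by
    intro L hL
    obtain ⟨f, hf, h⟩ := hardI_SAT L hL
    exact ⟨f, hf, fun _ => trivial, h⟩
  exact h.trans red_poly (fun φ _ => ⟨isGraph_red φ, bip_red φ⟩) (fun φ _ => red_correct φ)

/-! ### Membership in coNP -/

def adjB (E : List (ℕ × ℕ)) (u v : ℕ) : Bool := decide ((u, v) ∈ E) || decide ((v, u) ∈ E)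

theorem adjB_iff {E : List (ℕ × ℕ)} {u v : ℕ} : adjB E u v = true ↔ Adj E u v := by
  simp [adjB, Adj]

def confB (V : List ℕ) (E : List (ℕ × ℕ)) (u v : ℕ) : Bool :=
  V.any fun w => adjB E u w && adjB E v w

theorem confB_iff {V : List ℕ} {E : List (ℕ × ℕ)} (hG : IsGraph V E) {u v : ℕ} :
    confB V E u v = true ↔ ∃ w, Adj E u w ∧ Adj E v w := by
  unfold confB
  rw [List.any_eq_true]
  constructor
  · rintro ⟨w, _, h⟩
    rw [Bool.and_eq_true, adjB_iff, adjB_iff] at h
    exact ⟨w, h⟩
  · rintro ⟨w, h, h'⟩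
    refine ⟨w, ?_, by rw [Bool.and_eq_true, adjB_iff, adjB_iff]; exact ⟨h, h'⟩⟩
    rcases h with h | h
    · exact (hG.2.1 _ h).2.1
    · exact (hG.2.1 _ h).1

def packB (V : List ℕ) (E : List (ℕ × ℕ)) (S : List ℕ) : Bool :=
  (S.all fun v => decide (v ∈ V)) &&
    S.all fun u => S.all fun v => decide (u = v) || !confB V E u v

theorem packB_iff {V : List ℕ} {E : List (ℕ × ℕ)} (hG : IsGraph V E) (S : List ℕ) :
    packB V E S = true ↔ OpenPacking V E S.toFinset := by
  unfold packB OpenPacking
  simp only [Bool.and_eq_true, List.all_eq_true, decide_eq_true_eq, Bool.or_eq_true,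
    Bool.not_eq_true', List.mem_toFinset, ← Bool.not_eq_true, confB_iff hG]
  refine and_congr_right fun _ => forall₂_congr fun u _ => forall₂_congr fun v _ => ?_
  tauto

def maxB (V : List ℕ) (E : List (ℕ × ℕ)) (S : List ℕ) : Bool :=
  packB V E S && V.all fun x => decide (x ∈ S) || S.any fun s => decide (s ≠ x) && confB V E x s

theorem maxB_iff {V : List ℕ} {E : List (ℕ × ℕ)} (hG : IsGraph V E) (S : List ℕ) :
    maxB V E S = true ↔ MaxOpenPacking V E S.toFinset := by
  unfold maxB
  rw [Bool.and_eq_true, packB_iff hG]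
  simp only [List.all_eq_true, decide_eq_true_eq, Bool.or_eq_true, List.any_eq_true,
    Bool.and_eq_true, confB_iff hG]
  constructor
  · rintro ⟨h1, h2⟩
    refine ⟨h1, fun T hT hST => ?_⟩
    refine (Finset.Subset.antisymm hST ?_).symm
    intro x hx
    rcases h2 x (hT.1 x hx) with h | ⟨s, hs, hne, hc⟩
    · exact List.mem_toFinset.2 h
    · exact absurd hc (hT.2 x hx s (hST (List.mem_toFinset.2 hs)) (Ne.symm hne))
  · intro h
    refine ⟨h.1, fun x hx => ?_⟩
    by_cases hxS : x ∈ S
    · exact Or.inl hxS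
    · right
      obtain ⟨s, hs, hne, hc⟩ := max_blocked h hx (fun h => hxS (List.mem_toFinset.1 h))
      exact ⟨s, List.mem_toFinset.1 hs, hne, hc⟩

theorem adjB_poly {α : Type} [TEnc α] {E : α → List (ℕ × ℕ)} {x y : α → ℕ} (h : Poly E)
    (hx : Poly x) (hy : Poly y) : Poly (fun a => adjB (E a) (x a) (y a)) := by
  unfold adjB
  fun_prop

attribute [local fun_prop] adjB_poly

theorem confB_poly {α : Type} [TEnc α] {V : α → List ℕ} {E : α → List (ℕ × ℕ)} {x y : α → ℕ}
    (hV : Poly V) (h : Poly E) (hx : Poly x) (hy : Poly y) :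
    Poly (fun a => confB (V a) (E a) (x a) (y a)) := by
  unfold confB
  fun_prop

attribute [local fun_prop] confB_poly

theorem packB_poly {α : Type} [TEnc α] {V : α → List ℕ} {E : α → List (ℕ × ℕ)} {S : α → List ℕ}
    (hV : Poly V) (h : Poly E) (hS : Poly S) : Poly (fun a => packB (V a) (E a) (S a)) := by
  unfold packB
  fun_prop

attribute [local fun_prop] packB_poly

theorem maxB_poly {α : Type} [TEnc α] {V : α → List ℕ} {E : α → List (ℕ × ℕ)} {S : α → List ℕ}
    (hV : Poly V) (h : Poly E) (hS : Poly S) : Poly (fun a => maxB (V a) (E a) (S a)) := by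
  unfold maxB
  fun_prop

attribute [local fun_prop] maxB_poly isGraphB_poly nodup_poly

/-- the test -/
def test (x : (List ℕ × List (ℕ × ℕ)) × (List ℕ × List ℕ)) : Bool :=
  !isGraphB x.1.1 x.1.2 || (decide (x.2.1.Nodup) && decide (x.2.2.Nodup) &&
    maxB x.1.1 x.1.2 x.2.1 && maxB x.1.1 x.1.2 x.2.2 &&
    !decide (x.2.1.length = x.2.2.length))

theorem test_poly : Poly test := by
  unfold test
  fun_prop

theorem inCoNP : InCoNPP InClass := by
  classical
  refine inCoNPP_of (R := test) test_poly (2 * Polynomial.X + 2) ?_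
  rintro ⟨V, E⟩
  have hsz : (2 * Polynomial.X + 2 : Polynomial ℕ).eval (sz ((V, E) : List ℕ × List (ℕ × ℕ))) =
      2 * sz ((V, E) : List ℕ × List (ℕ × ℕ)) + 2 := by simp
  rw [hsz]
  constructor
  · intro h
    by_cases hG : IsGraph V E
    · have : ∃ S T, MaxOpenPacking V E S ∧ MaxOpenPacking V E T ∧ S.card ≠ T.card := by
        by_contra hcon
        push Not at hcon
        exact h ⟨hG, fun S T hS hT => hcon S T hS hT⟩
      obtain ⟨S, T, hS, hT, hne⟩ := this
      have key : ∀ S : Finset ℕ, MaxOpenPacking V E S →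
          (V.filter (fun v => decide (v ∈ S))).toFinset = S := by
        intro S hS
        ext v
        simp only [List.mem_toFinset, List.mem_filter, decide_eq_true_eq]
        exact ⟨fun h => h.2, fun h => ⟨hS.1.1 v h, h⟩⟩
      have hn : ∀ S : Finset ℕ, (V.filter (fun v => decide (v ∈ S))).Nodup :=
        fun S => hG.1.filter _
      refine ⟨(V.filter (fun v => decide (v ∈ S)), V.filter (fun v => decide (v ∈ T))), ?_, ?_⟩
      · have h1 := sz_filter_le (fun v => decide (v ∈ S)) V
        have h2 := sz_filter_le (fun v => decide (v ∈ T)) V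
        simp
        omega
      · unfold test
        simp only [Bool.or_eq_true, Bool.and_eq_true, decide_eq_true_eq, Bool.not_eq_true',
          decide_eq_false_iff_not, maxB_iff hG]
        right
        refine ⟨⟨⟨⟨hn S, hn T⟩, by rw [key S hS]; exact hS⟩, by rw [key T hT]; exact hT⟩, ?_⟩
        rw [← List.toFinset_card_of_nodup (hn S), ← List.toFinset_card_of_nodup (hn T),
          key S hS, key T hT]
        exact hne
    · refine ⟨([], []), by simp; omega, ?_⟩
      unfold test
      rw [Bool.or_eq_true]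
      left
      rw [Bool.not_eq_true', ← Bool.not_eq_true, isGraphB_iff]
      exact hG
  · rintro ⟨⟨S, T⟩, _, hw⟩ hcl
    have hG : IsGraph V E := hcl.1
    unfold test at hw
    simp only [Bool.or_eq_true, Bool.and_eq_true, decide_eq_true_eq, Bool.not_eq_true',
      decide_eq_false_iff_not, maxB_iff hG] at hw
    rcases hw with h | ⟨⟨⟨⟨h1, h2⟩, h3⟩, h4⟩, h5⟩
    · rw [← Bool.not_eq_true, isGraphB_iff] at h
      exact h hG
    · have := hcl.2 _ _ h3 h4
      rw [List.toFinset_card_of_nodup h1, List.toFinset_card_of_nodup h2] at this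
      exact h5 this

end Pool.Agent.Q231.OP
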