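import Mathlib

/-!
# The counting behind the reductions from CLIQUE to the two red-blue cut problems
-/

namespace Pool.Agent.Q231.RB

/-- The number of blue arcs leaving a set `X` of vertices, in terms of the graph. -/
def cost (V : Finset ℕ) (adj : ℕ → ℕ → Bool) (X : Finset ℕ) : ℕ :=
  ∑ v ∈ X, (V.card + (V.filter (fun w => adj v w = false)).card +
    (V.filter (fun w => adj v w = true ∧ w ∉ X)).card)

theorem term_eq (V : Finset ℕ) (adj : ℕ → ℕ → Bool) (X : Finset ℕ) (hX : X ⊆ V) (v : ℕ) :
    (V.filter (fun w => adj v w = false)).card +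
      (V.filter (fun w => adj v w = true ∧ w ∉ X)).card +
      (X.filter (fun w => adj v w = true)).card = V.card := by
  have h1 : X.filter (fun w => adj v w = true) = V.filter (fun w => adj v w = true ∧ w ∈ X) := by
    ext w
    simp only [Finset.mem_filter]
    constructor
    · rintro ⟨h, h'⟩; exact ⟨hX h, h', h⟩
    · rintro ⟨_, h', h⟩; exact ⟨h, h'⟩
  rw [h1, add_assoc, ← Finset.card_union_of_disjoint, ← Finset.card_union_of_disjoint]
  · congr 1
    ext w
    simp only [Finset.mem_union, Finset.mem_filter]
    cases adj v w <;> tauto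
  · rw [Finset.disjoint_left]
    intro w hw
    simp only [Finset.mem_union, Finset.mem_filter] at hw ⊢
    rcases hw.2 with h
    simp [h]
  · rw [Finset.disjoint_left]
    intro w hw
    simp only [Finset.mem_filter] at hw ⊢
    tauto

theorem inner_le (adj : ℕ → ℕ → Bool) (hirr : ∀ v, adj v v = false) (X : Finset ℕ) (v : ℕ)
    (hv : v ∈ X) : (X.filter (fun w => adj v w = true)).card + 1 ≤ X.card := by
  have h1 : X.filter (fun w => adj v w = true) ⊆ X.erase v := by
    intro w hw
    simp only [Finset.mem_filter] at hw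
    refine Finset.mem_erase.2 ⟨?_, hw.1⟩
    rintro rfl
    rw [hirr] at hw
    exact absurd hw.2 (by simp)
  have h2 := Finset.card_le_card h1
  have h3 := Finset.card_erase_add_one hv
  omega

theorem cost_add (V : Finset ℕ) (adj : ℕ → ℕ → Bool) (X : Finset ℕ) (hX : X ⊆ V) :
    cost V adj X + ∑ v ∈ X, (X.filter (fun w => adj v w = true)).card = 2 * V.card * X.card := by
  unfold cost
  rw [← Finset.sum_add_distrib]
  have : ∀ v ∈ X, V.card + (V.filter (fun w => adj v w = false)).card +
      (V.filter (fun w => adj v w = true ∧ w ∉ X)).card +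
      (X.filter (fun w => adj v w = true)).card = 2 * V.card := by
    intro v _
    have := term_eq V adj X hX v
    omega
  rw [Finset.sum_congr rfl this, Finset.sum_const, smul_eq_mul]
  ring

theorem clique_of_cost (V : Finset ℕ) (adj : ℕ → ℕ → Bool) (hirr : ∀ v, adj v v = false)
    (X : Finset ℕ) (hX : X ⊆ V) (k : ℕ) (hk : k ≤ V.card) (hred : (V \ X).card ≤ V.card - k)
    (hblue : cost V adj X ≤ 2 * V.card * k - (k * k - k)) :
    X.card = k ∧ ∀ v ∈ X, ∀ w ∈ X, v ≠ w → adj v w = true := by
  have h1 := cost_add V adj X hX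
  set n := V.card
  set x := X.card
  have hxk : k ≤ x := by
    have := Finset.card_sdiff_add_card_eq_card hX
    omega
  have hxn : x ≤ n := Finset.card_le_card hX
  have h2 : ∑ v ∈ X, (X.filter (fun w => adj v w = true)).card ≤ x * (x - 1) := by
    have : ∀ v ∈ X, (X.filter (fun w => adj v w = true)).card ≤ x - 1 := by
      intro v hv
      have := inner_le adj hirr X v hv
      omega
    have := Finset.sum_le_sum this
    rwa [Finset.sum_const, smul_eq_mul] at this
  have hkk : k * k - k ≤ 2 * n * k := by
    have : k * k ≤ n * k := Nat.mul_le_mul_right k hk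
    have h3 : n * k ≤ 2 * n * k := by nlinarith
    omega
  have hxeq : x = k := by
    by_contra hne
    obtain ⟨j, hj⟩ := Nat.exists_eq_add_of_le hxk
    have hj1 : 1 ≤ j := by omega
    obtain ⟨x', hx'⟩ : ∃ x', x = x' + 1 := ⟨x - 1, by omega⟩
    have h4 : 2 * n * x ≤ 2 * n * k - (k * k - k) + x * (x - 1) := by omega
    have h5 : x * (x - 1) + x = x * x := by
      rw [hx']; simp; ring
    have h6 : k * k - k + k = k * k := Nat.sub_add_cancel (Nat.le_mul_self k)
    have h7 : 2 * n * x + (k * k - k) ≤ 2 * n * k + x * (x - 1) := by omega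
    have h8 : 2 * n * x + k * k + x ≤ 2 * n * k + x * x + k := by omega
    rw [hj] at h8 hxn
    nlinarith
  have h3 : ∑ v ∈ X, (X.filter (fun w => adj v w = true)).card = ∑ v ∈ X, (x - 1) := by
    rw [Finset.sum_const, smul_eq_mul]
    refine le_antisymm h2 ?_
    have h5 : x * (x - 1) = k * k - k := by
      rw [hxeq, Nat.mul_sub, mul_one]
    show x * (x - 1) ≤ _
    have h6 : 2 * n * x = 2 * n * k := by rw [hxeq]
    omega
  have h4 := (Finset.sum_eq_sum_iff_of_le (fun v hv => by
    have := inner_le adj hirr X v hv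
    show _ ≤ x - 1
    omega)).1 h3
  refine ⟨hxeq, fun v hv w hw hvw => ?_⟩
  by_contra hadj
  have h5 : X.filter (fun w => adj v w = true) ⊆ (X.erase v).erase w := by
    intro u hu
    simp only [Finset.mem_filter] at hu
    refine Finset.mem_erase.2 ⟨?_, Finset.mem_erase.2 ⟨?_, hu.1⟩⟩
    · rintro rfl
      exact hadj hu.2
    · rintro rfl
      rw [hirr] at hu
      exact absurd hu.2 (by simp)
  have h6 := Finset.card_le_card h5
  have h7 := Finset.card_erase_add_one (Finset.mem_erase.2 ⟨Ne.symm hvw, hw⟩)
  have h8 := Finset.card_erase_add_one hv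
  have h9 := h4 v hv
  have : X.card = x := rfl
  omega

theorem cost_of_clique (V : Finset ℕ) (adj : ℕ → ℕ → Bool) (hirr : ∀ v, adj v v = false)
    (X : Finset ℕ) (hX : X ⊆ V) (k : ℕ) (hc : X.card = k)
    (hadj : ∀ v ∈ X, ∀ w ∈ X, v ≠ w → adj v w = true) :
    cost V adj X = 2 * V.card * k - (k * k - k) := by
  have h1 := cost_add V adj X hX
  have h2 : ∑ v ∈ X, (X.filter (fun w => adj v w = true)).card = k * k - k := by
    have : ∀ v ∈ X, (X.filter (fun w => adj v w = true)).card = k - 1 := by
      intro v hv
      have h3 : X.filter (fun w => adj v w = true) = X.erase v := by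
        ext w
        simp only [Finset.mem_filter, Finset.mem_erase]
        constructor
        · rintro ⟨h, h'⟩
          refine ⟨?_, h⟩
          rintro rfl
          rw [hirr] at h'
          exact absurd h' (by simp)
        · rintro ⟨h, h'⟩
          exact ⟨h', hadj v hv w h' (Ne.symm h)⟩
      rw [h3, Finset.card_erase_of_mem hv, hc]
    rw [Finset.sum_congr rfl this, Finset.sum_const, smul_eq_mul, hc, Nat.mul_sub, mul_one]
  rw [h2, hc] at h1
  omega

end Pool.Agent.Q231.RB
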