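import Pool.Agent.NPC.Defs

/-!
# The directed red-blue cut problem
-/

namespace Pool.Agent.Q231.RBDir

/-- A coloured arc `(u, v, c)`: `u` is its tail, `v` its head and `c` its colour (`true` is red,
`false` is blue). -/
abbrev Arc : Type := ℕ × ℕ × Bool

/-- `V` lists the vertices (each of them once) and `A` lists the arcs of a finite digraph whose arcs
are coloured red or blue. -/
def IsDigraph (V : List ℕ) (A : List Arc) : Prop :=
  V.Nodup ∧ ∀ a ∈ A, a.1 ∈ V ∧ a.2.1 ∈ V

/-- The number of arcs of colour `c` in the cut `δ⁺(X)` (tail in `X`, head not in `X`). -/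
def cutCount (A : List Arc) (X : Finset ℕ) (c : Bool) : ℕ :=
  (A.filter (fun a => decide (a.1 ∈ X ∧ a.2.1 ∉ X ∧ a.2.2 = c))).length

/-- Inputs `(V, A, r, b)`: the vertices, the arcs and the two bounds. -/
abbrev Inst : Type := List ℕ × List Arc × ℕ × ℕ

/-- **The red-blue cut problem (directed).**  Is there a nonempty proper subset `X` of the vertex
set such that `δ⁺(X)` contains at most `r` red arcs and at most `b` blue arcs? -/
def RedBlueCut (I : Inst) : Prop :=
  IsDigraph I.1 I.2.1 ∧ ∃ X : Finset ℕ, X.Nonempty ∧ X ⊂ I.1.toFinset ∧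
    cutCount I.2.1 X true ≤ I.2.2.1 ∧ cutCount I.2.1 X false ≤ I.2.2.2

/-- The digraph has no loops and no two arcs with the same tail and the same head. -/
def Simple (A : List Arc) : Prop :=
  (∀ a ∈ A, a.1 ≠ a.2.1) ∧ (A.map (fun a => (a.1, a.2.1))).Nodup

end Pool.Agent.Q231.RBDir
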