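import Pool.Agent.Q231.RBCore
import Pool.Agent.Q231.RBDirDefs
import Pool.Agent.H634R2.Clique
import Pool.Agent.H671R2.PolyAuto

/-!
# The directed red-blue cut problem is NP-complete
-/

namespace Pool.Agent.Q231.RBDir

open Pool.Agent.NPC Pool.Agent.NPC.H634R2 Pool.Agent.Q231.RB

/-- adjacency in the graph given by the list `E` -/
def adj (E : List (ℕ × ℕ)) (u v : ℕ) : Bool :=
  decide (u ≠ v) && (decide ((u, v) ∈ E) || decide ((v, u) ∈ E))

theorem adj_irr (E : List (ℕ × ℕ)) (v : ℕ) : adj E v v = false := by simp [adj]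

/-- the vertices of the digraph -/
def verts (V : List ℕ) : List ℕ := V.flatMap (fun v => [4 * v, 4 * v + 1, 4 * v + 2, 4 * v + 3])

/-- colours of the arcs of the digraph -/
def col (E : List (ℕ × ℕ)) (x y : ℕ) : Option Bool :=
  if x % 4 = 0 then
    if y % 4 = 0 then (if adj E (x / 4) (y / 4) then some false else none)
    else if y % 4 = 1 then some true
    else if y % 4 = 2 then (if adj E (x / 4) (y / 4) then none else some false)
    else some false
  else if x % 4 = 1 then
    if y % 4 = 0 then (if x / 4 = y / 4 then some true else none)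
    else if y % 4 = 1 then (if x / 4 = y / 4 then none else some true)
    else none
  else
    if x = y then none else some true

/-- the arcs of the digraph -/
def arcs (V : List ℕ) (E : List (ℕ × ℕ)) : List Arc :=
  ((verts V ×ˢ verts V).filter (fun p => (col E p.1 p.2).isSome)).map
    (fun p => (p.1, p.2, (col E p.1 p.2).getD false))

/-- the reduction -/
def red (I : (List ℕ × List (ℕ × ℕ)) × ℕ) : Inst :=
  if I.2 ≤ I.1.1.length then
    (verts I.1.1, arcs I.1.1 I.1.2, I.1.1.length - I.2,
      2 * I.1.1.length * I.2 - (I.2 * I.2 - I.2))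
  else ([], [], 0, 0)

theorem mem_verts {V : List ℕ} {x : ℕ} : x ∈ verts V ↔ x / 4 ∈ V := by
  unfold verts
  simp only [List.mem_flatMap, List.mem_cons, List.not_mem_nil, or_false]
  constructor
  · rintro ⟨v, hv, h⟩
    have : x / 4 = v := by omega
    rwa [this]
  · intro h
    exact ⟨x / 4, h, by omega⟩

theorem verts_nodup {V : List ℕ} (hV : V.Nodup) : (verts V).Nodup := by
  unfold verts
  rw [List.nodup_flatMap]
  refine ⟨fun v _ => by simp, ?_⟩
  refine hV.imp ?_
  intro a b hab
  simp only [Function.onFun, List.disjoint_left, List.mem_cons, List.not_mem_nil, or_false]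
  intro x hx hx'
  omega

theorem col_self (E : List (ℕ × ℕ)) (x : ℕ) : col E x x = none := by
  unfold col
  rw [adj_irr]
  split_ifs <;> simp_all

/-- the number of ordered pairs of vertices of colour `c` that leave `X` -/
theorem cutCount_arcs {V : List ℕ} (hV : V.Nodup) (E : List (ℕ × ℕ)) (X : Finset ℕ) (c : Bool) :
    cutCount (arcs V E) X c = (((verts V).toFinset ×ˢ (verts V).toFinset).filter
      (fun p => p.1 ∈ X ∧ p.2 ∉ X ∧ col E p.1 p.2 = some c)).card := by
  unfold cutCount arcs
  rw [List.filter_map, List.length_map, List.filter_filter]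
  have h1 : (verts V ×ˢ verts V).Nodup := (verts_nodup hV).product (verts_nodup hV)
  rw [← List.toFinset_card_of_nodup (h1.filter _)]
  congr 1
  ext ⟨x, y⟩
  simp only [List.mem_toFinset, List.mem_filter, Finset.mem_filter, Finset.mem_product,
    Function.comp_apply, Bool.and_eq_true, decide_eq_true_eq]
  constructor
  · rintro ⟨h, ⟨h2, h3, h4⟩, h5⟩
    refine ⟨List.pair_mem_product.1 h, h2, h3, ?_⟩
    obtain ⟨d, hd⟩ := Option.isSome_iff_exists.1 h5
    rw [hd] at h4 ⊢
    simpa using h4
  · rintro ⟨h, h2, h3, h4⟩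
    exact ⟨List.pair_mem_product.2 h, ⟨h2, h3, by rw [h4]; rfl⟩, by rw [h4]; rfl⟩

theorem simple_arcs {V : List ℕ} (hV : V.Nodup) (E : List (ℕ × ℕ)) : Simple (arcs V E) := by
  constructor
  · intro a ha
    unfold arcs at ha
    simp only [List.mem_map, List.mem_filter] at ha
    obtain ⟨p, ⟨_, hp⟩, rfl⟩ := ha
    intro h
    simp only at h
    rw [h, col_self] at hp
    simp at hp
  · unfold arcs
    rw [List.map_map]
    have : (fun a : Arc => (a.1, a.2.1)) ∘ (fun p : ℕ × ℕ =>
        ((p.1, p.2, (col E p.1 p.2).getD false) : Arc)) = id := by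
      funext p; rfl
    rw [this, List.map_id]
    exact ((verts_nodup hV).product (verts_nodup hV)).filter _

theorem isDigraph_arcs {V : List ℕ} (hV : V.Nodup) (E : List (ℕ × ℕ)) :
    IsDigraph (verts V) (arcs V E) := by
  refine ⟨verts_nodup hV, ?_⟩
  intro a ha
  unfold arcs at ha
  simp only [List.mem_map, List.mem_filter] at ha
  obtain ⟨⟨x, y⟩, ⟨hp, _⟩, rfl⟩ := ha
  exact List.pair_mem_product.1 hp

theorem le_cut {V : List ℕ} (hV : V.Nodup) (E : List (ℕ × ℕ)) (X : Finset ℕ) (c : Bool)
    (F : Finset (ℕ × ℕ)) (hF : ∀ p ∈ F, p.1 ∈ verts V ∧ p.2 ∈ verts V ∧ p.1 ∈ X ∧ p.2 ∉ X ∧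
      col E p.1 p.2 = some c) : F.card ≤ cutCount (arcs V E) X c := by
  rw [cutCount_arcs hV]
  refine Finset.card_le_card ?_
  intro p hp
  obtain ⟨h1, h2, h3⟩ := hF p hp
  simp only [Finset.mem_filter, Finset.mem_product, List.mem_toFinset]
  exact ⟨⟨h1, h2⟩, h3⟩

/-- a block which is split by `X` -/
theorem split_block {V : List ℕ} (hV : V.Nodup) (E : List (ℕ × ℕ)) (X : Finset ℕ)
    (B : Finset ℕ) (hB : ∀ x ∈ B, x ∈ verts V)
    (hcol : ∀ x ∈ B, ∀ y ∈ B, x ≠ y → col E x y = some true) {x y : ℕ} (hx : x ∈ B) (hxX : x ∈ X)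
    (hy : y ∈ B) (hyX : y ∉ X) : B.card ≤ cutCount (arcs V E) X true + 1 := by
  have h1 := le_cut hV E X true ((B.filter (· ∈ X)) ×ˢ (B.filter (· ∉ X))) (by
    intro p hp
    simp only [Finset.mem_product, Finset.mem_filter] at hp
    refine ⟨hB _ hp.1.1, hB _ hp.2.1, hp.1.2, hp.2.2, hcol _ hp.1.1 _ hp.2.1 ?_⟩
    intro h
    rw [h] at hp
    exact hp.2.2 hp.1.2)
  rw [Finset.card_product] at h1
  have h2 : (B.filter (· ∈ X)).card + (B.filter (· ∉ X)).card = B.card :=
    Finset.card_filter_add_card_filter_not _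
  have h3 : 0 < (B.filter (· ∈ X)).card := Finset.card_pos.2 ⟨x, by simp [hx, hxX]⟩
  have h4 : 0 < (B.filter (· ∉ X)).card := Finset.card_pos.2 ⟨y, by simp [hy, hyX]⟩
  nlinarith

theorem into_block {V : List ℕ} (hV : V.Nodup) (E : List (ℕ × ℕ)) (X : Finset ℕ)
    (B : Finset ℕ) (hB : ∀ x ∈ B, x ∈ verts V) {x : ℕ} (hxV : x ∈ verts V) (hx : x ∈ X)
    (hcol : ∀ y ∈ B, col E x y = some true) (hdis : ∀ y ∈ B, y ∉ X) :
    B.card ≤ cutCount (arcs V E) X true := by
  have h1 := le_cut hV E X true (({x} : Finset ℕ) ×ˢ B) (by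
    intro p hp
    simp only [Finset.mem_product, Finset.mem_singleton] at hp
    rw [hp.1]
    exact ⟨hxV, hB _ hp.2, hx, hdis _ hp.2, hcol _ hp.2⟩)
  rwa [Finset.card_product, Finset.card_singleton, one_mul] at h1

theorem from_block {V : List ℕ} (hV : V.Nodup) (E : List (ℕ × ℕ)) (X : Finset ℕ)
    (B : Finset ℕ) (hB : ∀ x ∈ B, x ∈ verts V) {y : ℕ} (hyV : y ∈ verts V) (hy : y ∉ X)
    (hcol : ∀ x ∈ B, col E x y = some true) (hsub : ∀ x ∈ B, x ∈ X) :
    B.card ≤ cutCount (arcs V E) X true := by
  have h1 := le_cut hV E X true (B ×ˢ ({y} : Finset ℕ)) (by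
    intro p hp
    simp only [Finset.mem_product, Finset.mem_singleton] at hp
    rw [hp.2]
    exact ⟨hB _ hp.1, hyV, hsub _ hp.1, hy, hcol _ hp.1⟩)
  rwa [Finset.card_product, Finset.card_singleton, mul_one] at h1

/-- sums over the vertices of the digraph -/
theorem sum_verts {V : List ℕ} (hV : V.Nodup) (f : ℕ → ℕ) :
    ∑ x ∈ (verts V).toFinset, f x =
      ∑ v ∈ V.toFinset, (f (4 * v) + f (4 * v + 1) + f (4 * v + 2) + f (4 * v + 3)) := by
  rw [List.sum_toFinset _ (verts_nodup hV), List.sum_toFinset _ hV]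
  unfold verts
  clear hV
  induction V with
  | nil => rfl
  | cons a l ih =>
    simp only [List.flatMap_cons, List.map_append, List.sum_append, List.map_cons, List.map_nil,
      List.sum_cons, List.sum_nil, ih]
    ring

theorem cutCount_sum {V : List ℕ} (hV : V.Nodup) (E : List (ℕ × ℕ)) (X : Finset ℕ) (c : Bool) :
    cutCount (arcs V E) X c = ∑ x ∈ (verts V).toFinset, ∑ y ∈ (verts V).toFinset,
      if x ∈ X ∧ y ∉ X ∧ col E x y = some c then 1 else 0 := by
  rw [cutCount_arcs hV, Finset.card_filter, Finset.sum_product]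

section colours

variable (E : List (ℕ × ℕ)) (v w : ℕ)

theorem col00 : col E (4 * v) (4 * w) = if adj E v w then some false else none := by
  simp [col]
theorem col01 : col E (4 * v) (4 * w + 1) = some true := by
  simp [col, show (4 * w + 1) % 4 = 1 by omega]
theorem col02 : col E (4 * v) (4 * w + 2) = if adj E v w then none else some false := by
  simp [col, show (4 * w + 2) % 4 = 2 by omega, show (4 * w + 2) / 4 = w by omega]
theorem col03 : col E (4 * v) (4 * w + 3) = some false := by
  simp [col, show (4 * w + 3) % 4 = 3 by omega]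
theorem col10 : col E (4 * v + 1) (4 * w) = if v = w then some true else none := by
  simp [col, show (4 * v + 1) % 4 = 1 by omega, show (4 * v + 1) / 4 = v by omega]
theorem col11 : col E (4 * v + 1) (4 * w + 1) = if v = w then none else some true := by
  simp [col, show (4 * v + 1) % 4 = 1 by omega, show (4 * w + 1) % 4 = 1 by omega,
    show (4 * v + 1) / 4 = v by omega, show (4 * w + 1) / 4 = w by omega]
theorem col12 : col E (4 * v + 1) (4 * w + 2) = none := by
  simp [col, show (4 * v + 1) % 4 = 1 by omega, show (4 * w + 2) % 4 = 2 by omega]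
theorem col13 : col E (4 * v + 1) (4 * w + 3) = none := by
  simp [col, show (4 * v + 1) % 4 = 1 by omega, show (4 * w + 3) % 4 = 3 by omega]
theorem col2 (y : ℕ) : col E (4 * v + 2) y = if 4 * v + 2 = y then none else some true := by
  simp [col, show (4 * v + 2) % 4 = 2 by omega]
theorem col3 (y : ℕ) : col E (4 * v + 3) y = if 4 * v + 3 = y then none else some true := by
  simp [col, show (4 * v + 3) % 4 = 3 by omega]

end colours

/-- the subset of `V` given by `X` -/
def part (V : List ℕ) (X : Finset ℕ) : Finset ℕ := V.toFinset.filter (fun v => 4 * v ∈ X)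

theorem blue_count {V : List ℕ} (hV : V.Nodup) (E : List (ℕ × ℕ)) (X : Finset ℕ)
    (h2 : ∀ v ∈ V, 4 * v + 2 ∉ X) (h3 : ∀ v ∈ V, 4 * v + 3 ∉ X) :
    cutCount (arcs V E) X false = cost V.toFinset (adj E) (part V X) := by
  rw [cutCount_sum hV, sum_verts hV]
  unfold cost part
  rw [Finset.sum_filter]
  refine Finset.sum_congr rfl fun v hv => ?_
  rw [List.mem_toFinset] at hv
  have e1 : ∑ y ∈ (verts V).toFinset,
      (if 4 * v + 1 ∈ X ∧ y ∉ X ∧ col E (4 * v + 1) y = some false then 1 else 0) = 0 := by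
    rw [sum_verts hV]
    refine Finset.sum_eq_zero fun w _ => ?_
    rw [col10, col11, col12, col13]
    split_ifs <;> simp_all
  have e2 : ∑ y ∈ (verts V).toFinset,
      (if 4 * v + 2 ∈ X ∧ y ∉ X ∧ col E (4 * v + 2) y = some false then 1 else 0) = 0 := by
    refine Finset.sum_eq_zero fun y _ => ?_
    simp [h2 v hv]
  have e3 : ∑ y ∈ (verts V).toFinset,
      (if 4 * v + 3 ∈ X ∧ y ∉ X ∧ col E (4 * v + 3) y = some false then 1 else 0) = 0 := by
    refine Finset.sum_eq_zero fun y _ => ?_
    simp [h3 v hv]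
  rw [e1, e2, e3, sum_verts hV]
  by_cases hx : 4 * v ∈ X
  · simp only [hx, true_and, if_true, add_zero]
    rw [Finset.card_eq_sum_ones V.toFinset, Finset.card_filter, Finset.card_filter,
      ← Finset.sum_add_distrib, ← Finset.sum_add_distrib]
    refine Finset.sum_congr rfl fun w hw => ?_
    rw [List.mem_toFinset] at hw
    rw [col00, col01, col02, col03]
    simp only [h2 w hw, h3 w hw, not_false_eq_true, true_and, Finset.mem_filter,
      List.mem_toFinset, hw]
    cases adj E v w <;> simp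
    split_ifs <;> rfl
  · simp [hx]

theorem red_ge {V : List ℕ} (hV : V.Nodup) (E : List (ℕ × ℕ)) (X : Finset ℕ)
    (h1 : ∀ v ∈ V, 4 * v + 1 ∈ X) :
    (V.toFinset \ part V X).card ≤ cutCount (arcs V E) X true := by
  have h2 := le_cut hV E X true ((V.toFinset \ part V X).image (fun v => (4 * v + 1, 4 * v))) (by
    intro p hp
    simp only [Finset.mem_image, Finset.mem_sdiff, part, Finset.mem_filter, List.mem_toFinset] at hp
    obtain ⟨v, ⟨hv, hv'⟩, rfl⟩ := hp
    refine ⟨?_, ?_, h1 v hv, fun h => hv' ⟨hv, h⟩, by simp [col10]⟩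
    · rw [mem_verts]; simpa [show (4 * v + 1) / 4 = v by omega] using hv
    · rw [mem_verts]; simpa using hv)
  rwa [Finset.card_image_of_injective] at h2
  intro a b hab
  simp only [Prod.mk.injEq] at hab
  omega

/-- the set of a clique -/
def big (V : List ℕ) (K : Finset ℕ) : Finset ℕ :=
  (V.toFinset.image (fun v => 4 * v + 1)) ∪ K.image (fun v => 4 * v)

theorem mem_big0 {V : List ℕ} {K : Finset ℕ} {v : ℕ} : 4 * v ∈ big V K ↔ v ∈ K := by
  unfold big
  simp only [Finset.mem_union, Finset.mem_image, List.mem_toFinset]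
  constructor
  · rintro (⟨a, _, h⟩ | ⟨a, ha, h⟩)
    · omega
    · have : a = v := by omega
      rwa [← this]
  · intro h; exact Or.inr ⟨v, h, rfl⟩

theorem mem_big1 {V : List ℕ} {K : Finset ℕ} {v : ℕ} : 4 * v + 1 ∈ big V K ↔ v ∈ V := by
  unfold big
  simp only [Finset.mem_union, Finset.mem_image, List.mem_toFinset]
  constructor
  · rintro (⟨a, ha, h⟩ | ⟨a, ha, h⟩)
    · have : a = v := by omega
      rwa [← this]
    · omega
  · intro h; exact Or.inl ⟨v, h, rfl⟩

theorem mem_big2 {V : List ℕ} {K : Finset ℕ} {v : ℕ} : 4 * v + 2 ∉ big V K := by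
  unfold big
  simp only [Finset.mem_union, Finset.mem_image, List.mem_toFinset, not_or, not_exists, not_and]
  exact ⟨fun a _ => by omega, fun a _ => by omega⟩

theorem mem_big3 {V : List ℕ} {K : Finset ℕ} {v : ℕ} : 4 * v + 3 ∉ big V K := by
  unfold big
  simp only [Finset.mem_union, Finset.mem_image, List.mem_toFinset, not_or, not_exists, not_and]
  exact ⟨fun a _ => by omega, fun a _ => by omega⟩

theorem red_big {V : List ℕ} (hV : V.Nodup) (E : List (ℕ × ℕ)) (K : Finset ℕ) :
    cutCount (arcs V E) (big V K) true = (V.toFinset \ K).card := by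
  rw [cutCount_sum hV, sum_verts hV]
  have hs : (V.toFinset \ K).card = ∑ v ∈ V.toFinset, if v ∉ K then 1 else 0 := by
    rw [← Finset.card_filter]
    congr 1
    ext v
    simp [Finset.mem_sdiff]
  rw [hs]
  refine Finset.sum_congr rfl fun v hv => ?_
  have hv' := List.mem_toFinset.1 hv
  have e0 : ∑ y ∈ (verts V).toFinset, (if 4 * v ∈ big V K ∧ y ∉ big V K ∧
      col E (4 * v) y = some true then 1 else 0) = 0 := by
    rw [sum_verts hV]
    refine Finset.sum_eq_zero fun w hw => ?_
    have hw' := List.mem_toFinset.1 hw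
    have hb : 4 * w + 1 ∈ big V K := mem_big1.2 hw'
    rw [col00, col01, col02, col03]
    cases adj E v w <;> simp [hb]
  have e1 : ∑ y ∈ (verts V).toFinset, (if 4 * v + 1 ∈ big V K ∧ y ∉ big V K ∧
      col E (4 * v + 1) y = some true then 1 else 0) = if v ∉ K then 1 else 0 := by
    rw [sum_verts hV, Finset.sum_eq_single v]
    · rw [col10, col11, col12, col13]
      simp only [mem_big1, mem_big0, hv', true_and, if_true]
      by_cases hk : v ∈ K <;> simp [hk]
    · intro w hw hne
      have hw' := List.mem_toFinset.1 hw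
      rw [col10, col11, col12, col13]
      simp only [mem_big1, hw', Ne.symm hne, if_false]
      simp
    · intro h; exact absurd hv h
  have e2 : ∑ y ∈ (verts V).toFinset, (if 4 * v + 2 ∈ big V K ∧ y ∉ big V K ∧
      col E (4 * v + 2) y = some true then 1 else 0) = 0 := by
    refine Finset.sum_eq_zero fun y _ => ?_
    simp [mem_big2]
  have e3 : ∑ y ∈ (verts V).toFinset, (if 4 * v + 3 ∈ big V K ∧ y ∉ big V K ∧
      col E (4 * v + 3) y = some true then 1 else 0) = 0 := by
    refine Finset.sum_eq_zero fun y _ => ?_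
    simp [mem_big3]
  rw [e0, e1, e2, e3]
  simp

theorem part_big {V : List ℕ} {K : Finset ℕ} (hK : K ⊆ V.toFinset) : part V (big V K) = K := by
  ext v
  simp only [part, Finset.mem_filter, mem_big0]
  exact ⟨fun h => h.2, fun h => ⟨hK h, h⟩⟩

theorem card_im {V : List ℕ} (hV : V.Nodup) (i : ℕ) :
    (V.toFinset.image (fun v => 4 * v + i)).card = V.length := by
  rw [Finset.card_image_of_injective, List.toFinset_card_of_nodup hV]
  intro a b hab
  simp only at hab
  omega

/-- If the red budget is small, the blocks lie on the correct sides. -/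
theorem blocks {V : List ℕ} (hV : V.Nodup) (E : List (ℕ × ℕ)) (X : Finset ℕ)
    (hX : X.Nonempty) (hXV : X ⊂ (verts V).toFinset)
    (hred : cutCount (arcs V E) X true + 2 ≤ V.length) :
    (∀ v ∈ V, 4 * v + 1 ∈ X) ∧ ∀ v ∈ V, 4 * v + 2 ∉ X ∧ 4 * v + 3 ∉ X := by
  have hsub : ∀ x ∈ X, x / 4 ∈ V := fun x hx => mem_verts.1 (List.mem_toFinset.1 (hXV.1 hx))
  -- the block S
  set S := V.toFinset.image (fun v => 4 * v + 1) with hSdef
  have hSc : S.card = V.length := card_im hV 1
  have hSV : ∀ x ∈ S, x ∈ verts V := by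
    intro x hx
    simp only [hSdef, Finset.mem_image, List.mem_toFinset] at hx
    obtain ⟨v, hv, rfl⟩ := hx
    rw [mem_verts]; simpa [show (4 * v + 1) / 4 = v by omega] using hv
  have hScol : ∀ x ∈ S, ∀ y ∈ S, x ≠ y → col E x y = some true := by
    intro x hx y hy hne
    simp only [hSdef, Finset.mem_image, List.mem_toFinset] at hx hy
    obtain ⟨v, hv, rfl⟩ := hx
    obtain ⟨w, hw, rfl⟩ := hy
    rw [col11, if_neg (by omega)]
  have hS : ∀ x ∈ S, x ∈ X := by
    by_contra hcon
    push Not at hcon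
    obtain ⟨y, hyS, hyX⟩ := hcon
    by_cases hex : ∃ x ∈ S, x ∈ X
    · obtain ⟨x, hxS, hxX⟩ := hex
      have := split_block hV E X S hSV hScol hxS hxX hyS hyX
      omega
    · push Not at hex
      obtain ⟨x, hx⟩ := hX
      have hxV := hsub x hx
      have := into_block hV E X S hSV (mem_verts.2 hxV) hx (by
        intro z hz
        have hzX := hex z hz
        simp only [hSdef, Finset.mem_image, List.mem_toFinset] at hz
        obtain ⟨w, hw, rfl⟩ := hz
        have h4 : x % 4 = 0 ∨ x % 4 = 1 ∨ x % 4 = 2 ∨ x % 4 = 3 := by omega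
        rcases h4 with h | h | h | h
        · obtain ⟨v, rfl⟩ : ∃ v, x = 4 * v := ⟨x / 4, by omega⟩
          exact col01 E v w
        · exfalso
          apply hex x _ hx
          simp only [hSdef, Finset.mem_image, List.mem_toFinset]
          exact ⟨x / 4, hxV, by omega⟩
        · obtain ⟨v, rfl⟩ : ∃ v, x = 4 * v + 2 := ⟨x / 4, by omega⟩
          rw [col2, if_neg (by omega)]
        · obtain ⟨v, rfl⟩ : ∃ v, x = 4 * v + 3 := ⟨x / 4, by omega⟩
          rw [col3, if_neg (by omega)]) hex
      omega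
  -- the block T
  set T := V.toFinset.image (fun v => 4 * v + 2) ∪ V.toFinset.image (fun v => 4 * v + 3)
    with hTdef
  have hTc : V.length ≤ T.card := by
    rw [← card_im hV 2]
    exact Finset.card_le_card Finset.subset_union_left
  have hTmem : ∀ x, x ∈ T ↔ x / 4 ∈ V ∧ 2 ≤ x % 4 := by
    intro x
    simp only [hTdef, Finset.mem_union, Finset.mem_image, List.mem_toFinset]
    constructor
    · rintro (⟨v, hv, rfl⟩ | ⟨v, hv, rfl⟩)
      · refine ⟨?_, by omega⟩
        rwa [show (4 * v + 2) / 4 = v by omega]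
      · refine ⟨?_, by omega⟩
        rwa [show (4 * v + 3) / 4 = v by omega]
    · rintro ⟨h, h'⟩
      rcases (by omega : x % 4 = 2 ∨ x % 4 = 3) with h2 | h2
      · exact Or.inl ⟨x / 4, h, by omega⟩
      · exact Or.inr ⟨x / 4, h, by omega⟩
  have hTV : ∀ x ∈ T, x ∈ verts V := fun x hx => mem_verts.2 ((hTmem x).1 hx).1
  have hTcol : ∀ x ∈ T, ∀ y, x ≠ y → col E x y = some true := by
    intro x hx y hne
    have h1 := ((hTmem x).1 hx).2
    rcases (by omega : x % 4 = 2 ∨ x % 4 = 3) with h2 | h2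
    · obtain ⟨v, rfl⟩ : ∃ v, x = 4 * v + 2 := ⟨x / 4, by omega⟩
      rw [col2, if_neg hne]
    · obtain ⟨v, rfl⟩ : ∃ v, x = 4 * v + 3 := ⟨x / 4, by omega⟩
      rw [col3, if_neg hne]
  have hT : ∀ x ∈ T, x ∉ X := by
    by_contra hcon
    push Not at hcon
    obtain ⟨x, hxT, hxX⟩ := hcon
    by_cases hex : ∃ y ∈ T, y ∉ X
    · obtain ⟨y, hyT, hyX⟩ := hex
      have := split_block hV E X T hTV (fun x hx y _ hne => hTcol x hx y hne) hxT hxX hyT hyX
      omega
    · push Not at hex
      obtain ⟨y, hyV, hyX⟩ := Finset.exists_of_ssubset hXV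
      have := from_block hV E X T hTV (List.mem_toFinset.1 hyV) hyX (by
        intro z hz
        refine hTcol z hz y ?_
        rintro rfl
        exact hyX (hex _ hz)) hex
      omega
  refine ⟨fun v hv => hS _ ?_, fun v hv => ⟨hT _ ?_, hT _ ?_⟩⟩
  · simp only [hSdef, Finset.mem_image, List.mem_toFinset]
    exact ⟨v, hv, rfl⟩
  · rw [hTmem]
    refine ⟨?_, by omega⟩
    rwa [show (4 * v + 2) / 4 = v by omega]
  · rw [hTmem]
    refine ⟨?_, by omega⟩
    rwa [show (4 * v + 3) / 4 = v by omega]

theorem adj_iff {E : List (ℕ × ℕ)} {u v : ℕ} (h : u ≠ v) :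
    adj E u v = true ↔ ((u, v) ∈ E ∨ (v, u) ∈ E) := by
  simp [adj, h]

theorem red_correct (I : (List ℕ × List (ℕ × ℕ)) × ℕ) (hI : IsGraph I.1.1 I.1.2 ∧ 2 ≤ I.2) :
    CLIQUE I ↔ RedBlueCut (red I) := by
  obtain ⟨⟨V, E⟩, k⟩ := I
  obtain ⟨hG, hk⟩ := hI
  have hV : V.Nodup := hG.1
  simp only at hG hk
  have hn : V.toFinset.card = V.length := List.toFinset_card_of_nodup hV
  unfold CLIQUE RedBlueCut red
  simp only
  by_cases hkn : k ≤ V.length
  · simp only [hkn, if_true]
    constructor
    · rintro ⟨_, K, hKV, hKc, hK⟩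
      have hKs : K ⊆ V.toFinset := fun v hv => List.mem_toFinset.2 (hKV v hv)
      refine ⟨isDigraph_arcs hV E, big V K, ?_, ?_, ?_, ?_⟩
      · obtain ⟨v, hv⟩ : K.Nonempty := Finset.card_pos.1 (by omega)
        exact ⟨4 * v, mem_big0.2 hv⟩
      · rw [Finset.ssubset_iff_of_subset]
        · obtain ⟨v, hv⟩ : K.Nonempty := Finset.card_pos.1 (by omega)
          refine ⟨4 * v + 2, ?_, mem_big2⟩
          rw [List.mem_toFinset, mem_verts, show (4 * v + 2) / 4 = v by omega]
          exact hKV v hv
        · intro x hx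
          rw [List.mem_toFinset, mem_verts]
          unfold big at hx
          simp only [Finset.mem_union, Finset.mem_image, List.mem_toFinset] at hx
          rcases hx with ⟨v, hv, rfl⟩ | ⟨v, hv, rfl⟩
          · rwa [show (4 * v + 1) / 4 = v by omega]
          · rw [show (4 * v) / 4 = v by omega]
            exact hKV v hv
      · rw [red_big hV E K, Finset.card_sdiff_of_subset hKs, hn, hKc]
      · rw [blue_count hV E _ (fun v _ => mem_big2) (fun v _ => mem_big3), part_big hKs,
          cost_of_clique V.toFinset (adj E) (adj_irr E) K hKs k hKc, hn]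
        intro v hv w hw hne
        exact (adj_iff hne).2 (hK v hv w hw hne)
    · rintro ⟨_, X, hX, hXV, hr, hb⟩
      have hbl := blocks hV E X hX hXV (by omega)
      have h1 := red_ge hV E X hbl.1
      rw [blue_count hV E X (fun v hv => (hbl.2 v hv).1) (fun v hv => (hbl.2 v hv).2)] at hb
      have hps : part V X ⊆ V.toFinset := Finset.filter_subset _ _
      have h2 := clique_of_cost V.toFinset (adj E) (adj_irr E) (part V X) hps k
        (by rw [hn]; exact hkn) (by rw [hn]; omega) (by rw [hn]; exact hb)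
      refine ⟨hG, part V X, fun v hv => List.mem_toFinset.1 (hps hv), h2.1, ?_⟩
      intro u hu v hv hne
      exact (adj_iff hne).1 (h2.2 u hu v hv hne)
  · simp only [hkn, if_false]
    constructor
    · rintro ⟨_, K, hKV, hKc, hK⟩
      exfalso
      have : K.card ≤ V.toFinset.card :=
        Finset.card_le_card fun v hv => List.mem_toFinset.2 (hKV v hv)
      omega
    · rintro ⟨_, X, hX, hXV, _⟩
      exfalso
      simp only [List.toFinset_nil] at hXV
      exact Finset.not_ssubset_empty _ hXV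

end Pool.Agent.Q231.RBDir
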