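import Pool.Agent.NPC.Defs

/-!
# The unweighted red-blue s-t cut problem in undirected graphs
-/

namespace Pool.Agent.Q231.RBUn

/-- A coloured edge `(u, v, c)`: `u` and `v` are its ends (their order is irrelevant), and `c` is its
colour (`true` is red, `false` is blue). -/
abbrev Edge : Type := ℕ × ℕ × Bool

/-- `V` lists the vertices (each of them once) and `E` lists the edges of a finite undirected graph
whose edges are coloured red or blue; `s` and `t` are distinct vertices. -/
def IsGraph (V : List ℕ) (E : List Edge) (s t : ℕ) : Prop :=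
  V.Nodup ∧ (∀ e ∈ E, e.1 ∈ V ∧ e.2.1 ∈ V) ∧ s ∈ V ∧ t ∈ V ∧ s ≠ t

/-- The number of edges of colour `c` in the cut `δ(X)`: the edges with exactly one end in `X`. -/
def cutCount (E : List Edge) (X : Finset ℕ) (c : Bool) : ℕ :=
  (E.filter (fun e => decide (((e.1 ∈ X ∧ e.2.1 ∉ X) ∨ (e.1 ∉ X ∧ e.2.1 ∈ X)) ∧ e.2.2 = c))).length

/-- Inputs `(V, E, s, t, r, b)`: vertices, edges, the two terminals and the two bounds. -/
abbrev Inst : Type := List ℕ × List Edge × ℕ × ℕ × ℕ × ℕ

/-- **The unweighted red-blue `s`-`t` cut problem.**  Is there a set `X` of vertices with `s ∈ X` and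
`t ∉ X` such that `δ(X)` contains at most `r` red edges and at most `b` blue edges? -/
def RedBlueCut : Inst → Prop
  | (V, E, s, t, r, b) => IsGraph V E s t ∧ ∃ X : Finset ℕ, X ⊆ V.toFinset ∧ s ∈ X ∧ t ∉ X ∧
      cutCount E X true ≤ r ∧ cutCount E X false ≤ b

/-- The graph has no loops and no two edges with the same pair of ends. -/
def Simple (E : List Edge) : Prop :=
  (∀ e ∈ E, e.1 ≠ e.2.1) ∧ (E.map (fun e => s(e.1, e.2.1))).Nodup

/-- The instance is a graph with two distinct terminals, without loops and parallel edges. -/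
def SimpleInst : Inst → Prop
  | (V, E, s, t, _, _) => IsGraph V E s t ∧ Simple E

end Pool.Agent.Q231.RBUn
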