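import Pool.Agent.Q231.RBCore
import Pool.Agent.Q231.RBUnDefs
import Pool.Agent.H634R2.Clique
import Pool.Agent.H671R2.PolyAuto

/-!
# The unweighted red-blue s-t cut problem in undirected graphs is NP-complete
-/

namespace Pool.Agent.Q231.RBUn

open Pool.Agent.NPC Pool.Agent.Q231.RB

/-- adjacency in the graph given by the list `E` -/
def adj (E : List (ℕ × ℕ)) (u v : ℕ) : Bool :=
  decide (u ≠ v) && (decide ((u, v) ∈ E) || decide ((v, u) ∈ E))

theorem adj_irr (E : List (ℕ × ℕ)) (v : ℕ) : adj E v v = false := by simp [adj]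

theorem adj_comm (E : List (ℕ × ℕ)) (u v : ℕ) : adj E u v = adj E v u := by
  unfold adj
  rw [Bool.or_comm, show decide (u ≠ v) = decide (v ≠ u) by simp [eq_comm]]

/-- the vertices: `0` and `1` are the terminals -/
def verts (V : List ℕ) : List ℕ :=
  0 :: 1 :: V.flatMap (fun v => [3 * v + 2, 3 * v + 3, 3 * v + 4])

/-- edges from a vertex `3 v + 2` to the sink side -/
def colvt (E : List (ℕ × ℕ)) (x y : ℕ) : Option Bool :=
  if y = 1 then none
  else if y % 3 = 0 then (if adj E (x / 3) (y / 3 - 1) then none else some false)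
  else some false

/-- colours of the pairs of vertices -/
def col (E : List (ℕ × ℕ)) (x y : ℕ) : Option Bool :=
  if x = y then none
  else if x = 0 then (if y % 3 = 2 then some true else none)
  else if y = 0 then (if x % 3 = 2 then some true else none)
  else if x % 3 = 2 then
    (if y % 3 = 2 then (if adj E (x / 3) (y / 3) then some false else none) else colvt E x y)
  else if y % 3 = 2 then colvt E y x
  else some true

theorem col_comm (E : List (ℕ × ℕ)) (x y : ℕ) : col E x y = col E y x := by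
  unfold col
  rw [adj_comm]
  split_ifs <;> simp_all

theorem col_self (E : List (ℕ × ℕ)) (x : ℕ) : col E x x = none := by
  unfold col
  simp

/-- the edges of the graph -/
def edges (V : List ℕ) (E : List (ℕ × ℕ)) : List Edge :=
  ((verts V ×ˢ verts V).filter (fun p => decide (p.1 < p.2) && (col E p.1 p.2).isSome)).map
    (fun p => (p.1, p.2, (col E p.1 p.2).getD false))

/-- the reduction -/
def red (I : (List ℕ × List (ℕ × ℕ)) × ℕ) : Inst :=
  if I.2 ≤ I.1.1.length then
    (verts I.1.1, edges I.1.1 I.1.2, 0, 1, I.1.1.length - I.2,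
      2 * I.1.1.length * I.2 - (I.2 * I.2 - I.2))
  else ([0, 1], [(0, 1, true)], 0, 1, 0, 0)

theorem mem_verts {V : List ℕ} {x : ℕ} : x ∈ verts V ↔ x = 0 ∨ x = 1 ∨ (2 ≤ x ∧ (x - 2) / 3 ∈ V) := by
  unfold verts
  simp only [List.mem_flatMap, List.mem_cons, List.not_mem_nil, or_false]
  constructor
  · rintro (h | h | ⟨v, hv, h⟩)
    · exact Or.inl h
    · exact Or.inr (Or.inl h)
    · refine Or.inr (Or.inr ⟨by omega, ?_⟩)
      have : (x - 2) / 3 = v := by omega
      rwa [this]
  · rintro (h | h | ⟨h2, h⟩)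
    · exact Or.inl h
    · exact Or.inr (Or.inl h)
    · exact Or.inr (Or.inr ⟨(x - 2) / 3, h, by omega⟩)

theorem verts_nodup {V : List ℕ} (hV : V.Nodup) : (verts V).Nodup := by
  unfold verts
  rw [List.nodup_cons, List.nodup_cons, List.nodup_flatMap]
  refine ⟨?_, ?_, fun v _ => by simp, ?_⟩
  · simp [List.mem_flatMap]
  · simp [List.mem_flatMap]
  refine hV.imp ?_
  intro a b hab
  simp only [Function.onFun, List.disjoint_left, List.mem_cons, List.not_mem_nil, or_false]
  intro x hx hx'
  omega

/-- the number of ordered pairs of vertices of colour `c` that leave `X` -/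
theorem cutCount_edges {V : List ℕ} (hV : V.Nodup) (E : List (ℕ × ℕ)) (X : Finset ℕ) (c : Bool) :
    cutCount (edges V E) X c = (((verts V).toFinset ×ˢ (verts V).toFinset).filter
      (fun p => p.1 ∈ X ∧ p.2 ∉ X ∧ col E p.1 p.2 = some c)).card := by
  unfold cutCount edges
  rw [List.filter_map, List.length_map, List.filter_filter]
  have h1 : (verts V ×ˢ verts V).Nodup := (verts_nodup hV).product (verts_nodup hV)
  rw [← List.toFinset_card_of_nodup (h1.filter _)]
  refine Finset.card_bij' (fun p _ => if p.1 ∈ X then p else (p.2, p.1))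
    (fun p _ => if p.1 < p.2 then p else (p.2, p.1)) ?_ ?_ ?_ ?_
  · rintro ⟨x, y⟩ h
    simp only [List.mem_toFinset, List.mem_filter,
      Function.comp_apply, Bool.and_eq_true, decide_eq_true_eq] at h
    obtain ⟨h0, ⟨h2, h3⟩, h4, h5⟩ := h
    have h6 := List.pair_mem_product.1 h0
    obtain ⟨d, hd⟩ := Option.isSome_iff_exists.1 h5
    rw [hd] at h3
    simp only [Option.getD_some] at h3
    subst h3
    simp only
    split_ifs with hx
    · simp only [Finset.mem_filter, Finset.mem_product, List.mem_toFinset]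
      exact ⟨h6, hx, by tauto, hd⟩
    · simp only [Finset.mem_filter, Finset.mem_product, List.mem_toFinset]
      refine ⟨⟨h6.2, h6.1⟩, by tauto, hx, ?_⟩
      rw [col_comm]; exact hd
  · rintro ⟨x, y⟩ h
    simp only [Finset.mem_filter, Finset.mem_product, List.mem_toFinset] at h
    obtain ⟨⟨h0, h1'⟩, hx, hy, hc⟩ := h
    have hne : x ≠ y := by rintro rfl; exact hy hx
    simp only
    split_ifs with hxy
    · simp only [List.mem_toFinset, List.mem_filter,
        Function.comp_apply, Bool.and_eq_true, decide_eq_true_eq]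
      exact ⟨List.pair_mem_product.2 ⟨h0, h1'⟩, ⟨Or.inl ⟨hx, hy⟩, by rw [hc]; rfl⟩, hxy,
        by rw [hc]; rfl⟩
    · simp only [List.mem_toFinset, List.mem_filter,
        Function.comp_apply, Bool.and_eq_true, decide_eq_true_eq]
      rw [col_comm] at hc
      exact ⟨List.pair_mem_product.2 ⟨h1', h0⟩, ⟨Or.inr ⟨hy, hx⟩, by rw [hc]; rfl⟩, by omega,
        by rw [hc]; rfl⟩
  · rintro ⟨x, y⟩ h
    simp only [List.mem_toFinset, List.mem_filter,
      Function.comp_apply, Bool.and_eq_true, decide_eq_true_eq] at h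
    obtain ⟨h0, ⟨h2, h3⟩, h4, h5⟩ := h
    by_cases hx : x ∈ X
    · simp [hx, h4]
    · simp [hx]; omega
  · rintro ⟨x, y⟩ h
    simp only [Finset.mem_filter, Finset.mem_product, List.mem_toFinset] at h
    obtain ⟨⟨h0, h1'⟩, hx, hy, hc⟩ := h
    by_cases hxy : x < y
    · simp [hx, hxy]
    · simp [hy, hxy]

theorem simple_edges {V : List ℕ} (hV : V.Nodup) (E : List (ℕ × ℕ)) : Simple (edges V E) := by
  constructor
  · intro a ha
    unfold edges at ha
    simp only [List.mem_map, List.mem_filter, Bool.and_eq_true, decide_eq_true_eq] at ha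
    obtain ⟨p, ⟨_, hp, _⟩, rfl⟩ := ha
    exact ne_of_lt hp
  · unfold edges
    rw [List.map_map]
    refine List.Nodup.map_on ?_ (((verts_nodup hV).product (verts_nodup hV)).filter _)
    rintro ⟨a, b⟩ ha ⟨c, d⟩ hc h
    simp only [List.mem_filter, Bool.and_eq_true, decide_eq_true_eq] at ha hc
    simp only [Function.comp_apply, Sym2.eq_iff] at h
    rcases h with ⟨rfl, rfl⟩ | ⟨rfl, rfl⟩
    · rfl
    · omega

theorem isGraph_edges {V : List ℕ} (hV : V.Nodup) (E : List (ℕ × ℕ)) :
    IsGraph (verts V) (edges V E) 0 1 := by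
  refine ⟨verts_nodup hV, ?_, mem_verts.2 (Or.inl rfl), mem_verts.2 (Or.inr (Or.inl rfl)), by simp⟩
  intro a ha
  unfold edges at ha
  simp only [List.mem_map, List.mem_filter] at ha
  obtain ⟨⟨x, y⟩, ⟨hp, _⟩, rfl⟩ := ha
  exact List.pair_mem_product.1 hp

theorem le_cut {V : List ℕ} (hV : V.Nodup) (E : List (ℕ × ℕ)) (X : Finset ℕ) (c : Bool)
    (F : Finset (ℕ × ℕ)) (hF : ∀ p ∈ F, p.1 ∈ verts V ∧ p.2 ∈ verts V ∧ p.1 ∈ X ∧ p.2 ∉ X ∧
      col E p.1 p.2 = some c) : F.card ≤ cutCount (edges V E) X c := by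
  rw [cutCount_edges hV]
  refine Finset.card_le_card ?_
  intro p hp
  obtain ⟨h1, h2, h3⟩ := hF p hp
  simp only [Finset.mem_filter, Finset.mem_product, List.mem_toFinset]
  exact ⟨⟨h1, h2⟩, h3⟩

/-- a block which is split by `X` -/
theorem split_block {V : List ℕ} (hV : V.Nodup) (E : List (ℕ × ℕ)) (X : Finset ℕ)
    (B : Finset ℕ) (hB : ∀ x ∈ B, x ∈ verts V)
    (hcol : ∀ x ∈ B, ∀ y ∈ B, x ≠ y → col E x y = some true) {x y : ℕ} (hx : x ∈ B) (hxX : x ∈ X)
    (hy : y ∈ B) (hyX : y ∉ X) : B.card ≤ cutCount (edges V E) X true + 1 := by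
  have h1 := le_cut hV E X true ((B.filter (· ∈ X)) ×ˢ (B.filter (· ∉ X))) (by
    intro p hp
    simp only [Finset.mem_product, Finset.mem_filter] at hp
    refine ⟨hB _ hp.1.1, hB _ hp.2.1, hp.1.2, hp.2.2, hcol _ hp.1.1 _ hp.2.1 ?_⟩
    intro h
    rw [h] at hp
    exact hp.2.2 hp.1.2)
  rw [Finset.card_product] at h1
  have h2 : (B.filter (· ∈ X)).card + (B.filter (· ∉ X)).card = B.card :=
    Finset.card_filter_add_card_filter_not _
  have h3 : 0 < (B.filter (· ∈ X)).card := Finset.card_pos.2 ⟨x, by simp [hx, hxX]⟩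
  have h4 : 0 < (B.filter (· ∉ X)).card := Finset.card_pos.2 ⟨y, by simp [hy, hyX]⟩
  nlinarith

/-- sums over the vertices of the graph -/
theorem sum_verts {V : List ℕ} (hV : V.Nodup) (f : ℕ → ℕ) :
    ∑ x ∈ (verts V).toFinset, f x =
      f 0 + f 1 + ∑ v ∈ V.toFinset, (f (3 * v + 2) + f (3 * v + 3) + f (3 * v + 4)) := by
  rw [List.sum_toFinset _ (verts_nodup hV), List.sum_toFinset _ hV]
  unfold verts
  simp only [List.map_cons, List.sum_cons]
  rw [← add_assoc]
  congr 1
  clear hV
  induction V with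
  | nil => rfl
  | cons a l ih =>
    simp only [List.flatMap_cons, List.map_append, List.sum_append, List.map_cons, List.map_nil,
      List.sum_cons, List.sum_nil, ih]
    ring

theorem cutCount_sum {V : List ℕ} (hV : V.Nodup) (E : List (ℕ × ℕ)) (X : Finset ℕ) (c : Bool) :
    cutCount (edges V E) X c = ∑ x ∈ (verts V).toFinset, ∑ y ∈ (verts V).toFinset,
      if x ∈ X ∧ y ∉ X ∧ col E x y = some c then 1 else 0 := by
  rw [cutCount_edges hV, Finset.card_filter, Finset.sum_product]

section colours

variable (E : List (ℕ × ℕ)) (v w : ℕ)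

theorem col00 : col E 0 0 = none := col_self E 0
theorem col01 : col E 0 1 = none := by simp [col]
theorem col0v : col E 0 (3 * w + 2) = some true := by
  simp [col, show (3 * w + 2) % 3 = 2 by omega]
theorem col0a : col E 0 (3 * w + 3) = none := by
  simp [col]
theorem col0b : col E 0 (3 * w + 4) = none := by
  simp [col, show (3 * w + 4) % 3 = 1 by omega]
theorem colv0 : col E (3 * v + 2) 0 = some true := by rw [col_comm, col0v]
theorem colv1 : col E (3 * v + 2) 1 = none := by
  simp [col, colvt, show (3 * v + 2) % 3 = 2 by omega]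
theorem colvv : col E (3 * v + 2) (3 * w + 2) = if adj E v w then some false else none := by
  by_cases h : v = w
  · subst h
    rw [col_self, adj_irr]; rfl
  · simp [col, h, show (3 * v + 2) % 3 = 2 by omega, show (3 * w + 2) % 3 = 2 by omega,
      show (3 * v + 2) / 3 = v by omega, show (3 * w + 2) / 3 = w by omega]
theorem colva : col E (3 * v + 2) (3 * w + 3) = if adj E v w then none else some false := by
  have h : 3 * v + 2 ≠ 3 * w + 3 := by omega
  unfold col colvt
  rw [if_neg h]
  simp [show (3 * v + 2) % 3 = 2 by omega, show (3 * v + 2) / 3 = v by omega]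
theorem colvb : col E (3 * v + 2) (3 * w + 4) = some false := by
  have h : 3 * v + 2 ≠ 3 * w + 4 := by omega
  unfold col colvt
  rw [if_neg h]
  simp [show (3 * v + 2) % 3 = 2 by omega, show (3 * w + 4) % 3 = 1 by omega]
theorem coltt {x y : ℕ} (hx : x ≠ 0) (hx' : x % 3 ≠ 2) (hy : y ≠ 0) (hy' : y % 3 ≠ 2)
    (h : x ≠ y) : col E x y = some true := by
  simp [col, hx, hx', hy, hy', h]

end colours

/-- the subset of `V` given by `X` -/
def part (V : List ℕ) (X : Finset ℕ) : Finset ℕ := V.toFinset.filter (fun v => 3 * v + 2 ∈ X)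

theorem blue_count {V : List ℕ} (hV : V.Nodup) (E : List (ℕ × ℕ)) (X : Finset ℕ)
    (h1 : 1 ∉ X) (h2 : ∀ v ∈ V, 3 * v + 3 ∉ X) (h3 : ∀ v ∈ V, 3 * v + 4 ∉ X) :
    cutCount (edges V E) X false = cost V.toFinset (adj E) (part V X) := by
  rw [cutCount_sum hV, sum_verts hV]
  unfold cost part
  have e0 : ∑ y ∈ (verts V).toFinset,
      (if 0 ∈ X ∧ y ∉ X ∧ col E 0 y = some false then 1 else 0) = 0 := by
    rw [sum_verts hV, col00, col01]
    simp [col0v, col0a, col0b]
  have e1 : ∑ y ∈ (verts V).toFinset,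
      (if 1 ∈ X ∧ y ∉ X ∧ col E 1 y = some false then 1 else 0) = 0 := by
    refine Finset.sum_eq_zero fun y _ => ?_
    simp [h1]
  rw [e0, e1, zero_add, zero_add, Finset.sum_filter]
  refine Finset.sum_congr rfl fun v hv => ?_
  rw [List.mem_toFinset] at hv
  have e2 : ∑ y ∈ (verts V).toFinset,
      (if 3 * v + 3 ∈ X ∧ y ∉ X ∧ col E (3 * v + 3) y = some false then 1 else 0) = 0 := by
    refine Finset.sum_eq_zero fun y _ => ?_
    simp [h2 v hv]
  have e3 : ∑ y ∈ (verts V).toFinset,
      (if 3 * v + 4 ∈ X ∧ y ∉ X ∧ col E (3 * v + 4) y = some false then 1 else 0) = 0 := by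
    refine Finset.sum_eq_zero fun y _ => ?_
    simp [h3 v hv]
  rw [e2, e3, sum_verts hV]
  by_cases hx : 3 * v + 2 ∈ X
  · simp only [hx, true_and, if_true, add_zero, colv0, colv1]
    rw [Finset.card_eq_sum_ones V.toFinset, Finset.card_filter, Finset.card_filter,
      ← Finset.sum_add_distrib, ← Finset.sum_add_distrib]
    simp only [reduceCtorEq, and_false, if_false, zero_add, Option.some.injEq, Bool.true_eq_false]
    refine Finset.sum_congr rfl fun w hw => ?_
    rw [List.mem_toFinset] at hw
    rw [colvv, colva, colvb]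
    simp only [h2 w hw, h3 w hw, not_false_eq_true, true_and, Finset.mem_filter,
      List.mem_toFinset, hw]
    cases adj E v w <;> simp
    split_ifs <;> rfl
  · simp [hx]

theorem red_ge {V : List ℕ} (hV : V.Nodup) (E : List (ℕ × ℕ)) (X : Finset ℕ)
    (h0 : 0 ∈ X) :
    (V.toFinset \ part V X).card ≤ cutCount (edges V E) X true := by
  have h2 := le_cut hV E X true ((V.toFinset \ part V X).image (fun v => (0, 3 * v + 2))) (by
    intro p hp
    simp only [Finset.mem_image, Finset.mem_sdiff, part, Finset.mem_filter, List.mem_toFinset] at hp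
    obtain ⟨v, ⟨hv, hv'⟩, rfl⟩ := hp
    refine ⟨?_, ?_, h0, fun h => hv' ⟨hv, h⟩, by simp [col0v]⟩
    · rw [mem_verts]; simp
    · rw [mem_verts]
      refine Or.inr (Or.inr ⟨by simp, ?_⟩)
      simpa using hv)
  rwa [Finset.card_image_of_injective] at h2
  intro a b hab
  simp only [Prod.mk.injEq] at hab
  omega

/-- the set of a clique -/
def big (K : Finset ℕ) : Finset ℕ := insert 0 (K.image (fun v => 3 * v + 2))

theorem mem_big {K : Finset ℕ} {v : ℕ} : 3 * v + 2 ∈ big K ↔ v ∈ K := by
  unfold big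
  simp only [Finset.mem_insert, Finset.mem_image]
  constructor
  · rintro (h | ⟨a, ha, h⟩)
    · omega
    · have : a = v := by omega
      rwa [← this]
  · intro h; exact Or.inr ⟨v, h, rfl⟩

theorem not_mem_big {K : Finset ℕ} {x : ℕ} (hx : x ≠ 0) (hx' : x % 3 ≠ 2) : x ∉ big K := by
  unfold big
  simp only [Finset.mem_insert, Finset.mem_image, not_or, not_exists, not_and]
  exact ⟨hx, fun a _ => by omega⟩

theorem zero_mem_big {K : Finset ℕ} : 0 ∈ big K := Finset.mem_insert_self _ _

theorem red_big {V : List ℕ} (hV : V.Nodup) (E : List (ℕ × ℕ)) (K : Finset ℕ) :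
    cutCount (edges V E) (big K) true = (V.toFinset \ K).card := by
  rw [cutCount_sum hV, sum_verts hV]
  have hs : (V.toFinset \ K).card = ∑ v ∈ V.toFinset, if v ∉ K then 1 else 0 := by
    rw [← Finset.card_filter]
    congr 1
    ext v
    simp [Finset.mem_sdiff]
  have n1 : 1 ∉ big K := not_mem_big (by simp) (by simp)
  have n2 : ∀ v : ℕ, 3 * v + 3 ∉ big K := fun v => not_mem_big (by omega) (by omega)
  have n3 : ∀ v : ℕ, 3 * v + 4 ∉ big K := fun v => not_mem_big (by omega) (by omega)
  have e0 : ∑ y ∈ (verts V).toFinset, (if 0 ∈ big K ∧ y ∉ big K ∧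
      col E 0 y = some true then 1 else 0) = (V.toFinset \ K).card := by
    rw [sum_verts hV, col00, col01, hs]
    simp [col0v, col0a, col0b, zero_mem_big, mem_big]
  have e1 : ∑ y ∈ (verts V).toFinset, (if 1 ∈ big K ∧ y ∉ big K ∧
      col E 1 y = some true then 1 else 0) = 0 := by
    refine Finset.sum_eq_zero fun y _ => ?_
    simp [n1]
  have e2 : ∑ v ∈ V.toFinset, (∑ y ∈ (verts V).toFinset, (if 3 * v + 2 ∈ big K ∧ y ∉ big K ∧
      col E (3 * v + 2) y = some true then 1 else 0) +
      ∑ y ∈ (verts V).toFinset, (if 3 * v + 3 ∈ big K ∧ y ∉ big K ∧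
      col E (3 * v + 3) y = some true then 1 else 0) +
      ∑ y ∈ (verts V).toFinset, (if 3 * v + 4 ∈ big K ∧ y ∉ big K ∧
      col E (3 * v + 4) y = some true then 1 else 0)) = 0 := by
    refine Finset.sum_eq_zero fun v _ => ?_
    simp only [n2, n3, false_and, if_false, Finset.sum_const_zero, add_zero]
    rw [sum_verts hV]
    simp only [colv0, colv1, colvv, colva, colvb, zero_mem_big, not_true_eq_false, false_and,
      and_false, if_false, reduceCtorEq, zero_add]
    refine Finset.sum_eq_zero fun w _ => ?_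
    cases adj E v w <;> simp
  rw [e0, e1, e2, add_zero, add_zero]

theorem part_big {V : List ℕ} {K : Finset ℕ} (hK : K ⊆ V.toFinset) : part V (big K) = K := by
  ext v
  simp only [part, Finset.mem_filter, mem_big]
  exact ⟨fun h => h.2, fun h => ⟨hK h, h⟩⟩

/-- If the red budget is small, the sink block lies outside of `X`. -/
theorem blocks {V : List ℕ} (hV : V.Nodup) (E : List (ℕ × ℕ)) (X : Finset ℕ)
    (h1 : 1 ∉ X) (hred : cutCount (edges V E) X true < V.length) :
    ∀ v ∈ V, 3 * v + 3 ∉ X ∧ 3 * v + 4 ∉ X := by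
  set B := (verts V).toFinset.filter (fun x => x ≠ 0 ∧ x % 3 ≠ 2) with hBdef
  have hBV : ∀ x ∈ B, x ∈ verts V := by
    intro x hx
    simp only [hBdef, Finset.mem_filter, List.mem_toFinset] at hx
    exact hx.1
  have hBcol : ∀ x ∈ B, ∀ y ∈ B, x ≠ y → col E x y = some true := by
    intro x hx y hy hne
    simp only [hBdef, Finset.mem_filter, List.mem_toFinset] at hx hy
    exact coltt E hx.2.1 hx.2.2 hy.2.1 hy.2.2 hne
  have h1B : 1 ∈ B := by
    simp only [hBdef, Finset.mem_filter, List.mem_toFinset]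
    exact ⟨mem_verts.2 (Or.inr (Or.inl rfl)), by simp, by simp⟩
  have hc : V.length + 1 ≤ B.card := by
    have h2 : insert 1 (V.toFinset.image (fun v => 3 * v + 3)) ⊆ B := by
      intro x hx
      rw [Finset.mem_insert] at hx
      rcases hx with rfl | hx
      · exact h1B
      · simp only [Finset.mem_image, List.mem_toFinset] at hx
        obtain ⟨v, hv, rfl⟩ := hx
        simp only [hBdef, Finset.mem_filter, List.mem_toFinset, mem_verts]
        refine ⟨Or.inr (Or.inr ⟨by omega, ?_⟩), by omega, by omega⟩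
        rwa [show (3 * v + 3 - 2) / 3 = v by omega]
    have h3 := Finset.card_le_card h2
    rw [Finset.card_insert_of_notMem, Finset.card_image_of_injective,
      List.toFinset_card_of_nodup hV] at h3
    · exact h3
    · intro a b hab
      simp only at hab
      omega
    · simp only [Finset.mem_image, not_exists, not_and]
      intro a _
      omega
  have hkey : ∀ x ∈ B, x ∉ X := by
    intro x hx hxX
    have := split_block hV E X B hBV hBcol hx hxX h1B h1
    omega
  intro v hv
  constructor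
  · apply hkey
    simp only [hBdef, Finset.mem_filter, List.mem_toFinset, mem_verts]
    refine ⟨Or.inr (Or.inr ⟨by omega, ?_⟩), by omega, by omega⟩
    rwa [show (3 * v + 3 - 2) / 3 = v by omega]
  · apply hkey
    simp only [hBdef, Finset.mem_filter, List.mem_toFinset, mem_verts]
    refine ⟨Or.inr (Or.inr ⟨by omega, ?_⟩), by omega, by omega⟩
    rwa [show (3 * v + 4 - 2) / 3 = v by omega]

theorem adj_iff {E : List (ℕ × ℕ)} {u v : ℕ} (h : u ≠ v) :
    adj E u v = true ↔ ((u, v) ∈ E ∨ (v, u) ∈ E) := by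
  simp [adj, h]

theorem red_correct (I : (List ℕ × List (ℕ × ℕ)) × ℕ)
    (hI : Pool.Agent.NPC.H634R2.IsGraph I.1.1 I.1.2 ∧ 2 ≤ I.2) :
    Pool.Agent.NPC.H634R2.CLIQUE I ↔ RedBlueCut (red I) := by
  obtain ⟨⟨V, E⟩, k⟩ := I
  obtain ⟨hG, hk⟩ := hI
  have hV : V.Nodup := hG.1
  simp only at hG hk
  have hn : V.toFinset.card = V.length := List.toFinset_card_of_nodup hV
  unfold Pool.Agent.NPC.H634R2.CLIQUE red
  simp only
  by_cases hkn : k ≤ V.length
  · simp only [hkn, if_true]
    constructor
    · rintro ⟨_, K, hKV, hKc, hK⟩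
      have hKs : K ⊆ V.toFinset := fun v hv => List.mem_toFinset.2 (hKV v hv)
      refine ⟨isGraph_edges hV E, big K, ?_, zero_mem_big, not_mem_big (by simp) (by simp), ?_, ?_⟩
      · intro x hx
        rw [List.mem_toFinset, mem_verts]
        unfold big at hx
        simp only [Finset.mem_insert, Finset.mem_image] at hx
        rcases hx with rfl | ⟨v, hv, rfl⟩
        · exact Or.inl rfl
        · refine Or.inr (Or.inr ⟨by omega, ?_⟩)
          rw [show (3 * v + 2 - 2) / 3 = v by omega]
          exact hKV v hv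
      · rw [red_big hV E K, Finset.card_sdiff_of_subset hKs, hn, hKc]
      · rw [blue_count hV E _ (not_mem_big (by simp) (by simp))
          (fun v _ => not_mem_big (by omega) (by omega))
          (fun v _ => not_mem_big (by omega) (by omega)), part_big hKs,
          cost_of_clique V.toFinset (adj E) (adj_irr E) K hKs k hKc, hn]
        intro v hv w hw hne
        exact (adj_iff hne).2 (hK v hv w hw hne)
    · rintro ⟨_, X, hXV, h0, h1, hr, hb⟩
      have hbl := blocks hV E X h1 (by omega)
      have h2 := red_ge hV E X h0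
      rw [blue_count hV E X h1 (fun v hv => (hbl v hv).1) (fun v hv => (hbl v hv).2)] at hb
      have hps : part V X ⊆ V.toFinset := Finset.filter_subset _ _
      have h2 := clique_of_cost V.toFinset (adj E) (adj_irr E) (part V X) hps k
        (by rw [hn]; exact hkn) (by rw [hn]; omega) (by rw [hn]; exact hb)
      refine ⟨hG, part V X, fun v hv => List.mem_toFinset.1 (hps hv), h2.1, ?_⟩
      intro u hu v hv hne
      exact (adj_iff hne).1 (h2.2 u hu v hv hne)
  · simp only [hkn, if_false]
    constructor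
    · rintro ⟨_, K, hKV, hKc, hK⟩
      exfalso
      have : K.card ≤ V.toFinset.card :=
        Finset.card_le_card fun v hv => List.mem_toFinset.2 (hKV v hv)
      omega
    · rintro ⟨_, X, hXV, h0, h1, hr, _⟩
      exfalso
      simp [cutCount, h0, h1] at hr

end Pool.Agent.Q231.RBUn
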