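import Pool.Agent.Q231.RBUn
import Pool.Agent.NPC.Dec

/-!
# The unweighted red-blue s-t cut problem: polynomial time and membership in NP
-/

namespace Pool.Agent.Q231.RBUn

open Pool.Agent.NPC Pool.Agent.Q231.RB

theorem adj_poly {α : Type} [TEnc α] {E : α → List (ℕ × ℕ)} {u v : α → ℕ} (hE : Poly E)
    (hu : Poly u) (hv : Poly v) : Poly (fun a => adj (E a) (u a) (v a)) := by
  unfold adj
  fun_prop

attribute [local fun_prop] adj_poly

theorem colvt_poly {α : Type} [TEnc α] {E : α → List (ℕ × ℕ)} {u v : α → ℕ} (hE : Poly E)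
    (hu : Poly u) (hv : Poly v) : Poly (fun a => colvt (E a) (u a) (v a)) := by
  unfold colvt
  fun_prop

attribute [local fun_prop] colvt_poly

theorem col_poly {α : Type} [TEnc α] {E : α → List (ℕ × ℕ)} {u v : α → ℕ} (hE : Poly E)
    (hu : Poly u) (hv : Poly v) : Poly (fun a => col (E a) (u a) (v a)) := by
  unfold col
  fun_prop

attribute [local fun_prop] col_poly

theorem verts_poly {α : Type} [TEnc α] {V : α → List ℕ} (hV : Poly V) :
    Poly (fun a => verts (V a)) := by
  unfold verts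
  fun_prop

attribute [local fun_prop] verts_poly

theorem isSome_poly {α β : Type} [TEnc α] [TEnc β] {o : α → Option β} (ho : Poly o) :
    Poly (fun a => (o a).isSome) := Poly.isSome ho

attribute [local fun_prop] isSome_poly

theorem edges_poly {α : Type} [TEnc α] {V : α → List ℕ} {E : α → List (ℕ × ℕ)} (hV : Poly V)
    (hE : Poly E) : Poly (fun a => edges (V a) (E a)) := by
  unfold edges
  fun_prop

attribute [local fun_prop] edges_poly

theorem red_poly : Poly red := by
  unfold red
  fun_prop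

theorem red_simple (I : (List ℕ × List (ℕ × ℕ)) × ℕ)
    (hI : Pool.Agent.NPC.H634R2.IsGraph I.1.1 I.1.2) : SimpleInst (red I) := by
  unfold red
  split_ifs
  · exact ⟨isGraph_edges hI.1 _, simple_edges hI.1 _⟩
  · exact ⟨⟨by simp, by simp, by simp, by simp, by simp⟩, by simp, by simp⟩

/-- Hardness for simple graphs. -/
theorem hardPr : HardPr SimpleInst RedBlueCut :=
  Pool.Agent.NPC.H634R2.hardPr_CLIQUE.trans red_poly (fun I hI => red_simple I hI.1) red_correct

/-! ### Membership in NP -/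

/-- the test for a set given by a list -/
def test (x : Inst × List ℕ) : Bool :=
  decide (x.1.1.Nodup) && (x.1.2.1.all fun a => decide (a.1 ∈ x.1.1) && decide (a.2.1 ∈ x.1.1)) &&
    decide (x.1.2.2.1 ∈ x.1.1) && decide (x.1.2.2.2.1 ∈ x.1.1) &&
    decide (x.1.2.2.1 ≠ x.1.2.2.2.1) && (x.2.all fun v => decide (v ∈ x.1.1)) &&
    decide (x.1.2.2.1 ∈ x.2) && !decide (x.1.2.2.2.1 ∈ x.2) &&
    decide ((x.1.2.1.filter fun a => decide (((a.1 ∈ x.2 ∧ a.2.1 ∉ x.2) ∨
      (a.1 ∉ x.2 ∧ a.2.1 ∈ x.2)) ∧ a.2.2 = true)).length ≤ x.1.2.2.2.2.1) &&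
    decide ((x.1.2.1.filter fun a => decide (((a.1 ∈ x.2 ∧ a.2.1 ∉ x.2) ∨
      (a.1 ∉ x.2 ∧ a.2.1 ∈ x.2)) ∧ a.2.2 = false)).length ≤ x.1.2.2.2.2.2)

theorem cutCount_list (A : List Edge) (W : List ℕ) (c : Bool) :
    cutCount A W.toFinset c =
      (A.filter fun a => decide (((a.1 ∈ W ∧ a.2.1 ∉ W) ∨ (a.1 ∉ W ∧ a.2.1 ∈ W)) ∧
        a.2.2 = c)).length := by
  unfold cutCount
  simp only [List.mem_toFinset]

theorem test_iff (V : List ℕ) (E : List Edge) (s t r b : ℕ) (W : List ℕ) :
    test ((V, E, s, t, r, b), W) = true ↔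
    IsGraph V E s t ∧ W.toFinset ⊆ V.toFinset ∧ s ∈ W.toFinset ∧ t ∉ W.toFinset ∧
    cutCount E W.toFinset true ≤ r ∧ cutCount E W.toFinset false ≤ b := by
  unfold test IsGraph
  simp only [Bool.and_eq_true, decide_eq_true_eq, List.all_eq_true, Bool.not_eq_true',
    decide_eq_false_iff_not, cutCount_list, Finset.subset_iff, List.mem_toFinset]
  tauto

theorem nodup_poly {α : Type} [TEnc α] {l : α → List ℕ} (hl : Poly l) :
    Poly (fun a => decide ((l a).Nodup)) := by
  have key : ∀ l : List ℕ, decide l.Nodup =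
      l.zipIdx.all (fun p => l.zipIdx.all (fun q => decide (p.1 = q.1 → p.2 = q.2))) := by
    intro l
    rw [Bool.eq_iff_iff]
    simp only [decide_eq_true_eq, List.all_eq_true]
    rw [List.nodup_iff_injective_getElem]
    constructor
    · intro h p hp q hq hpq
      obtain ⟨x, i⟩ := p
      obtain ⟨y, j⟩ := q
      rw [List.mem_zipIdx_iff_getElem?] at hp hq
      simp only at hp hq hpq ⊢
      obtain ⟨hi, hi'⟩ := List.getElem?_eq_some_iff.1 hp
      obtain ⟨hj, hj'⟩ := List.getElem?_eq_some_iff.1 hq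
      have := @h ⟨i, hi⟩ ⟨j, hj⟩ (by simp only [hi', hj', hpq])
      simpa using this
    · rintro h ⟨i, hi⟩ ⟨j, hj⟩ hij
      have := h (l[i], i) (by rw [List.mem_zipIdx_iff_getElem?]; simp [hi]) (l[j], j)
        (by rw [List.mem_zipIdx_iff_getElem?]; simp [hj]) hij
      simpa using this
  have h2 : ∀ p q : ℕ × ℕ, decide (p.1 = q.1 → p.2 = q.2) =
      (!decide (p.1 = q.1) || decide (p.2 = q.2)) := by
    intro p q
    by_cases h : p.1 = q.1 <;> simp [h]
  refine Poly.congr (f := fun a => (l a).zipIdx.all (fun p => (l a).zipIdx.all (fun q =>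
    (!decide (p.1 = q.1) || decide (p.2 = q.2))))) (by fun_prop) fun a => ?_
  rw [key]
  simp only [h2]

attribute [local fun_prop] nodup_poly

theorem test_poly : Poly test := by
  unfold test
  fun_prop

theorem sz_filter_le {β : Type} [TEnc β] (p : β → Bool) (l : List β) :
    sz (l.filter p) ≤ sz l := by
  induction l with
  | nil => simp
  | cons a l ih =>
    rw [List.filter_cons]
    split_ifs <;> simp <;> omega

theorem inNP : InNPP RedBlueCut := by
  refine inNPP_of (R := test) test_poly Polynomial.X ?_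
  rintro ⟨V, E, s, t, r, b⟩
  simp only [Polynomial.eval_X]
  constructor
  · rintro ⟨h1, X, hXV, hs, ht, hr, hb⟩
    refine ⟨V.filter (fun v => decide (v ∈ X)), ?_, ?_⟩
    · refine (sz_filter_le _ _).trans ?_
      simp
      omega
    · have : (V.filter (fun v => decide (v ∈ X))).toFinset = X := by
        ext v
        simp only [List.mem_toFinset, List.mem_filter, decide_eq_true_eq]
        exact ⟨fun h => h.2, fun h => ⟨List.mem_toFinset.1 (hXV h), h⟩⟩
      rw [test_iff, this]
      exact ⟨h1, hXV, hs, ht, hr, hb⟩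
  · rintro ⟨W, _, hW⟩
    rw [test_iff] at hW
    exact ⟨hW.1, W.toFinset, hW.2⟩

end Pool.Agent.Q231.RBUn
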